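import Pool.Agent.Helper30.PML.Comps

set_option autoImplicit false

/-! # The action of row and column permutations and the space `W` -/

namespace Pool.Agent.Helper30.PML

open Finset

variable {n : ℕ}

/-- the group of row and column permutations -/
abbrev Gp (n : ℕ) := Equiv.Perm (Fin n) × Equiv.Perm (Fin n)

/-- the action on sets of cells -/
def act (g : Gp n) (A : Finset (Cell n)) : Finset (Cell n) :=
  A.map (Equiv.prodCongr g.1 g.2).toEmbedding

/-- the action on pairs -/
def actp (g : Gp n) (p : Pr n) : Pr n := (act g p.1, act g p.2)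

lemma mem_act {g : Gp n} {A : Finset (Cell n)} {x : Cell n} :
    x ∈ act g A ↔ (g.1.symm x.1, g.2.symm x.2) ∈ A := by
  unfold act
  rw [mem_map_equiv]
  rfl

lemma mk_mem_act {g : Gp n} {A : Finset (Cell n)} {i j : Fin n} :
    (g.1 i, g.2 j) ∈ act g A ↔ (i, j) ∈ A := by
  rw [mem_act]
  simp

lemma act_mul (g h : Gp n) (A : Finset (Cell n)) : act (g * h) A = act g (act h A) := by
  ext x
  rw [mem_act, mem_act, mem_act]
  rfl

lemma act_one (A : Finset (Cell n)) : act (1 : Gp n) A = A := by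
  ext x
  rw [mem_act]
  rfl

lemma act_inv_act (g : Gp n) (A : Finset (Cell n)) : act g⁻¹ (act g A) = A := by
  rw [← act_mul, inv_mul_cancel, act_one]

lemma act_act_inv (g : Gp n) (A : Finset (Cell n)) : act g (act g⁻¹ A) = A := by
  rw [← act_mul, mul_inv_cancel, act_one]

lemma actp_mul (g h : Gp n) (p : Pr n) : actp (g * h) p = actp g (actp h p) := by
  unfold actp
  rw [act_mul, act_mul]

lemma actp_one (p : Pr n) : actp (1 : Gp n) p = p := by
  unfold actp
  rw [act_one, act_one]

lemma actp_inv_actp (g : Gp n) (p : Pr n) : actp g⁻¹ (actp g p) = p := by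
  rw [← actp_mul, inv_mul_cancel, actp_one]

lemma actp_actp_inv (g : Gp n) (p : Pr n) : actp g (actp g⁻¹ p) = p := by
  rw [← actp_mul, mul_inv_cancel, actp_one]

lemma act_union (g : Gp n) (A B : Finset (Cell n)) : act g (A ∪ B) = act g A ∪ act g B := by
  ext x
  simp only [mem_act, mem_union]

lemma act_inter (g : Gp n) (A B : Finset (Cell n)) : act g (A ∩ B) = act g A ∩ act g B := by
  ext x
  simp only [mem_act, mem_inter]

lemma act_sdiff (g : Gp n) (A B : Finset (Cell n)) : act g (A \ B) = act g A \ act g B := by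
  ext x
  simp only [mem_act, mem_sdiff]

lemma card_act (g : Gp n) (A : Finset (Cell n)) : (act g A).card = A.card := card_map _

lemma act_subset {g : Gp n} {A B : Finset (Cell n)} (h : A ⊆ B) : act g A ⊆ act g B :=
  map_subset_map.2 h

lemma act_nonempty {g : Gp n} {A : Finset (Cell n)} (h : A.Nonempty) : (act g A).Nonempty :=
  h.map

lemma mem_rows_act {g : Gp n} {A : Finset (Cell n)} {i : Fin n} :
    i ∈ rows (act g A) ↔ g.1.symm i ∈ rows A := by
  rw [mem_rows, mem_rows]
  constructor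
  · rintro ⟨j, hj⟩
    rw [mem_act] at hj
    exact ⟨_, hj⟩
  · rintro ⟨j, hj⟩
    refine ⟨g.2 j, ?_⟩
    rw [mem_act]
    simpa using hj

lemma mem_cols_act {g : Gp n} {A : Finset (Cell n)} {i : Fin n} :
    i ∈ cols (act g A) ↔ g.2.symm i ∈ cols A := by
  rw [mem_cols, mem_cols]
  constructor
  · rintro ⟨j, hj⟩
    rw [mem_act] at hj
    exact ⟨_, hj⟩
  · rintro ⟨j, hj⟩
    refine ⟨g.1 j, ?_⟩
    rw [mem_act]
    simpa using hj

lemma mem_rows_act_inv {g : Gp n} {A : Finset (Cell n)} {i : Fin n} :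
    i ∈ rows (act g⁻¹ A) ↔ g.1 i ∈ rows A := mem_rows_act

lemma mem_cols_act_inv {g : Gp n} {A : Finset (Cell n)} {i : Fin n} :
    i ∈ cols (act g⁻¹ A) ↔ g.2 i ∈ cols A := mem_cols_act

lemma adj_iff (g : Gp n) (x y : Cell n) :
    Adj (g.1.symm x.1, g.2.symm x.2) (g.1.symm y.1, g.2.symm y.2) ↔ Adj x y := by
  unfold Adj
  simp

lemma isPl_act {g : Gp n} {A : Finset (Cell n)} (h : IsPl A) : IsPl (act g A) := by
  intro x hx y hy hxy
  rw [mem_act] at hx hy
  have h1 := h _ hx _ hy ((adj_iff g x y).2 hxy)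
  simp only [Prod.mk.injEq, EmbeddingLike.apply_eq_iff_eq] at h1
  exact Prod.ext h1.1 h1.2

lemma isPl_act_iff {g : Gp n} {A : Finset (Cell n)} : IsPl (act g A) ↔ IsPl A := by
  refine ⟨fun h => ?_, isPl_act⟩
  have := isPl_act (g := g⁻¹) h
  rwa [act_inv_act] at this

lemma closed_act {g : Gp n} {U C : Finset (Cell n)} (h : Closed U C) :
    Closed (act g U) (act g C) := by
  intro x hx y hy hxy
  rw [mem_act] at hx hy ⊢
  exact h _ hx _ hy ((adj_iff g x y).2 hxy)

lemma comps_act {g : Gp n} {U C : Finset (Cell n)} (h : C ∈ comps U) :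
    act g C ∈ comps (act g U) := by
  rw [mem_comps] at h ⊢
  refine ⟨act_subset h.1, act_nonempty h.2.1, closed_act h.2.2.1, ?_⟩
  intro C' hC' hne hcl
  have h1 : act g⁻¹ C' ⊆ C := by
    have := act_subset (g := g⁻¹) hC'
    rwa [act_inv_act] at this
  have h2 : Closed U (act g⁻¹ C') := by
    have := closed_act (g := g⁻¹) hcl
    rwa [act_inv_act] at this
  rw [← h.2.2.2 _ h1 (act_nonempty hne) h2, act_act_inv]

lemma comps_act_iff {g : Gp n} {U C : Finset (Cell n)} :
    act g C ∈ comps (act g U) ↔ C ∈ comps U := by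
  refine ⟨fun h => ?_, comps_act⟩
  have := comps_act (g := g⁻¹) h
  rwa [act_inv_act, act_inv_act] at this

lemma mem_down_act {g : Gp n} {p : Pr n} {C : Finset (Cell n)} :
    act g C ∈ down (actp g p) ↔ C ∈ down p := by
  rw [mem_down, mem_down]
  unfold actp
  simp only
  rw [← act_union, comps_act_iff, ← act_inter, ← act_inter, card_act, card_act]

lemma flip_act (g : Gp n) (C : Finset (Cell n)) (p : Pr n) :
    flip (act g C) (actp g p) = actp g (flip C p) := by
  unfold flip actp
  simp only [act_union, act_inter, act_sdiff]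

lemma F_act (w : Pr n → ℂ) (g : Gp n) (p : Pr n) :
    F w (actp g p) = F (fun q => w (actp g q)) p := by
  unfold F
  symm
  refine sum_bij (fun C _ => act g C) (fun C hC => mem_down_act.2 hC) ?_ ?_ ?_
  · intro C _ C' _ h
    rw [← act_inv_act g C, h, act_inv_act]
  · intro C hC
    refine ⟨act g⁻¹ C, ?_, act_act_inv g C⟩
    rw [← mem_down_act (g := g), act_act_inv]
    exact hC
  · intro C _
    rw [flip_act]

/-- harmonicity in the rows used once -/
def RowC (w : Pr n → ℂ) : Prop := ∀ (p : Pr n) (i : Fin n), i ∈ rows (p.1 ∪ p.2) →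
  i ∉ rows p.1 ∩ rows p.2 →
    w p + ∑ t ∈ (rows (p.1 ∪ p.2))ᶜ, w (actp (Equiv.swap i t, 1) p) = 0

/-- harmonicity in the columns used once -/
def ColC (w : Pr n → ℂ) : Prop := ∀ (p : Pr n) (i : Fin n), i ∈ cols (p.1 ∪ p.2) →
  i ∉ cols p.1 ∩ cols p.2 →
    w p + ∑ t ∈ (cols (p.1 ∪ p.2))ᶜ, w (actp (1, Equiv.swap i t) p) = 0

/-- the space `W` -/
def W (n a b : ℕ) : Submodule ℂ (Pr n → ℂ) where
  carrier := {w | Supp a b w ∧ RowC w ∧ ColC w}
  zero_mem' := by
    refine ⟨fun p hp => absurd rfl hp, fun p i _ _ => ?_, fun p i _ _ => ?_⟩ <;> simp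
  add_mem' := by
    rintro w v ⟨h1, h2, h3⟩ ⟨h1', h2', h3'⟩
    refine ⟨fun p hp => ?_, fun p i hi hi' => ?_, fun p i hi hi' => ?_⟩
    · rcases ne_or_eq (w p) 0 with h | h
      · exact h1 p h
      · refine h1' p ?_
        rw [Pi.add_apply, h, zero_add] at hp
        exact hp
    · have e1 := h2 p i hi hi'
      have e2 := h2' p i hi hi'
      simp only [Pi.add_apply, sum_add_distrib]
      linear_combination e1 + e2
    · have e1 := h3 p i hi hi'
      have e2 := h3' p i hi hi'
      simp only [Pi.add_apply, sum_add_distrib]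
      linear_combination e1 + e2
  smul_mem' := by
    rintro c w ⟨h1, h2, h3⟩
    refine ⟨fun p hp => ?_, fun p i hi hi' => ?_, fun p i hi hi' => ?_⟩
    · refine h1 p fun h => hp ?_
      rw [Pi.smul_apply, h, smul_zero]
    · have e1 := h2 p i hi hi'
      simp only [Pi.smul_apply, smul_eq_mul, ← mul_sum]
      linear_combination c * e1
    · have e1 := h3 p i hi hi'
      simp only [Pi.smul_apply, smul_eq_mul, ← mul_sum]
      linear_combination c * e1

lemma mem_W {a b : ℕ} {w : Pr n → ℂ} : w ∈ W n a b ↔ Supp a b w ∧ RowC w ∧ ColC w := Iff.rfl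

lemma flip_rows_inter {p : Pr n} {C : Finset (Cell n)} (hC : C ∈ comps (p.1 ∪ p.2)) :
    rows (flip C p).1 ∩ rows (flip C p).2 ⊆ rows p.1 ∩ rows p.2 := by
  have hcl := (mem_comps.1 hC).2.2.1
  intro i hi
  rw [mem_inter, mem_rows, mem_rows] at hi
  obtain ⟨⟨j, hj⟩, ⟨k, hk⟩⟩ := hi
  rw [mem_inter, mem_rows, mem_rows]
  simp only [flip, mem_union, mem_sdiff, mem_inter] at hj hk
  have hadj : Adj ((i, j) : Cell n) (i, k) := Or.inl rfl
  rcases hj with hj | hj <;> rcases hk with hk | hk
  · exact ⟨⟨j, hj.1⟩, ⟨k, hk.1⟩⟩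
  · exact absurd (hcl _ hk.2 _ (mem_union_left _ hj.1) hadj.symm) hj.2
  · exact absurd (hcl _ hj.2 _ (mem_union_right _ hk.1) hadj) hk.2
  · exact ⟨⟨k, hk.1⟩, ⟨j, hj.1⟩⟩

lemma flip_cols_inter {p : Pr n} {C : Finset (Cell n)} (hC : C ∈ comps (p.1 ∪ p.2)) :
    cols (flip C p).1 ∩ cols (flip C p).2 ⊆ cols p.1 ∩ cols p.2 := by
  have hcl := (mem_comps.1 hC).2.2.1
  intro i hi
  rw [mem_inter, mem_cols, mem_cols] at hi
  obtain ⟨⟨j, hj⟩, ⟨k, hk⟩⟩ := hi
  rw [mem_inter, mem_cols, mem_cols]
  simp only [flip, mem_union, mem_sdiff, mem_inter] at hj hk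
  have hadj : Adj ((j, i) : Cell n) (k, i) := Or.inr rfl
  rcases hj with hj | hj <;> rcases hk with hk | hk
  · exact ⟨⟨j, hj.1⟩, ⟨k, hk.1⟩⟩
  · exact absurd (hcl _ hk.2 _ (mem_union_left _ hj.1) hadj.symm) hj.2
  · exact absurd (hcl _ hj.2 _ (mem_union_right _ hk.1) hadj) hk.2
  · exact ⟨⟨k, hk.1⟩, ⟨j, hj.1⟩⟩

lemma rowC_F {w : Pr n → ℂ} (h : RowC w) : RowC (F w) := by
  intro p i hi hi'
  simp_rw [F_act]
  unfold F
  rw [sum_comm, ← sum_add_distrib]
  refine sum_eq_zero fun C hC => ?_
  have hC' := (mem_down.1 hC).1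
  have h1 := h (flip C p) i (by rw [flip_union]; exact hi)
    (fun hcon => hi' (flip_rows_inter hC' hcon))
  rw [flip_union] at h1
  exact h1

lemma colC_F {w : Pr n → ℂ} (h : ColC w) : ColC (F w) := by
  intro p i hi hi'
  simp_rw [F_act]
  unfold F
  rw [sum_comm, ← sum_add_distrib]
  refine sum_eq_zero fun C hC => ?_
  have hC' := (mem_down.1 hC).1
  have h1 := h (flip C p) i (by rw [flip_union]; exact hi)
    (fun hcon => hi' (flip_cols_inter hC' hcon))
  rw [flip_union] at h1
  exact h1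

lemma F_mem_W {a b : ℕ} {w : Pr n → ℂ} (h : w ∈ W n (a + 1) b) : F w ∈ W n a (b + 1) :=
  ⟨supp_F h.1, rowC_F h.2.1, colC_F h.2.2⟩

/-- `F` as a linear map from `W (a + 1) b` to `W a (b + 1)` -/
noncomputable def FW (n a b : ℕ) : W n (a + 1) b →ₗ[ℂ] W n a (b + 1) where
  toFun w := ⟨F w, F_mem_W w.2⟩
  map_add' := by
    intro w v
    ext p
    simp [F, sum_add_distrib]
  map_smul' := by
    intro c w
    ext p
    simp [F, mul_sum]

lemma FW_injective {a b : ℕ} (hab : b ≤ a) : Function.Injective (FW n a b) := by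
  rw [← LinearMap.ker_eq_bot, LinearMap.ker_eq_bot']
  intro w hw
  ext1
  exact F_injective (Nat.lt_succ_of_le hab) w.2.1 (congrArg Subtype.val hw)

/-- the action on functions -/
def actf (g : Gp n) (w : Pr n → ℂ) : Pr n → ℂ := fun p => w (actp g⁻¹ p)

lemma supp_actf {a b : ℕ} {w : Pr n → ℂ} (h : Supp a b w) (g : Gp n) : Supp a b (actf g w) := by
  intro p hp
  obtain ⟨h1, h2, h3, h4⟩ := h _ hp
  refine ⟨isPl_act_iff.1 h1, isPl_act_iff.1 h2, ?_, ?_⟩
  · rw [← h3]
    exact (card_act _ _).symm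
  · rw [← h4]
    exact (card_act _ _).symm

lemma rowC_actf {w : Pr n → ℂ} (h : RowC w) (g : Gp n) : RowC (actf g w) := by
  intro p i hi hi'
  have h1 := h (actp g⁻¹ p) (g.1⁻¹ i) ?_ ?_
  · unfold actf
    rw [← h1]
    congr 1
    refine sum_bij (fun t _ => g.1⁻¹ t) ?_ ?_ ?_ ?_
    · intro t ht
      rw [mem_compl] at ht ⊢
      intro hcon
      apply ht
      unfold actp at hcon
      simp only at hcon
      rw [← act_union, mem_rows_act_inv] at hcon
      simpa using hcon
    · intro t _ s _ hts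
      simpa using hts
    · intro t ht
      refine ⟨g.1 t, ?_, by simp⟩
      rw [mem_compl] at ht ⊢
      intro hcon
      apply ht
      unfold actp
      simp only
      rw [← act_union, mem_rows_act_inv]
      simpa using hcon
    · intro t _
      rw [← actp_mul, ← actp_mul]
      congr 2
      refine Prod.ext ?_ (by simp)
      simp only [Prod.fst_mul, Prod.fst_inv]
      ext y
      rw [Equiv.Perm.mul_apply, Equiv.Perm.mul_apply, Equiv.swap_apply_def,
        Equiv.swap_apply_def]
      split_ifs <;> simp_all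
  · unfold actp
    simp only
    rw [← act_union, mem_rows_act_inv]
    simpa using hi
  · unfold actp
    simp only
    rw [mem_inter, mem_rows_act_inv, mem_rows_act_inv, ← mem_inter]
    simpa using hi'

lemma colC_actf {w : Pr n → ℂ} (h : ColC w) (g : Gp n) : ColC (actf g w) := by
  intro p i hi hi'
  have h1 := h (actp g⁻¹ p) (g.2⁻¹ i) ?_ ?_
  · unfold actf
    rw [← h1]
    congr 1
    refine sum_bij (fun t _ => g.2⁻¹ t) ?_ ?_ ?_ ?_
    · intro t ht
      rw [mem_compl] at ht ⊢
      intro hcon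
      apply ht
      unfold actp at hcon
      simp only at hcon
      rw [← act_union, mem_cols_act_inv] at hcon
      simpa using hcon
    · intro t _ s _ hts
      simpa using hts
    · intro t ht
      refine ⟨g.2 t, ?_, by simp⟩
      rw [mem_compl] at ht ⊢
      intro hcon
      apply ht
      unfold actp
      simp only
      rw [← act_union, mem_cols_act_inv]
      simpa using hcon
    · intro t _
      rw [← actp_mul, ← actp_mul]
      congr 2
      refine Prod.ext (by simp) ?_
      simp only [Prod.snd_mul, Prod.snd_inv]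
      ext y
      rw [Equiv.Perm.mul_apply, Equiv.Perm.mul_apply, Equiv.swap_apply_def,
        Equiv.swap_apply_def]
      split_ifs <;> simp_all
  · unfold actp
    simp only
    rw [← act_union, mem_cols_act_inv]
    simpa using hi
  · unfold actp
    simp only
    rw [mem_inter, mem_cols_act_inv, mem_cols_act_inv, ← mem_inter]
    simpa using hi'

/-- the action on `W` -/
def actW (n a b : ℕ) (g : Gp n) : W n a b →ₗ[ℂ] W n a b where
  toFun w := ⟨actf g w, supp_actf w.2.1 g, rowC_actf w.2.2.1 g, colC_actf w.2.2.2 g⟩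
  map_add' := by
    intro w v
    rfl
  map_smul' := by
    intro c w
    rfl

lemma FW_actW {a b : ℕ} (g : Gp n) (w : W n (a + 1) b) :
    FW n a b (actW n (a + 1) b g w) = actW n a (b + 1) g (FW n a b w) := by
  ext p
  change F (actf g w) p = F w (actp g⁻¹ p)
  rw [F_act]
  rfl

end Pool.Agent.Helper30.PML
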