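import Mathlib

set_option autoImplicit false

/-! # Unions of two rook placements: components and flips -/

namespace Pool.Agent.Helper30.PML

open Finset

/-- cells of the `n × n` board -/
abbrev Cell (n : ℕ) := Fin n × Fin n

/-- pairs of sets of cells -/
abbrev Pr (n : ℕ) := Finset (Cell n) × Finset (Cell n)

variable {n : ℕ}

/-- two cells share a row or a column -/
def Adj (x y : Cell n) : Prop := x.1 = y.1 ∨ x.2 = y.2

/-- rook placements -/
def IsPl (A : Finset (Cell n)) : Prop := ∀ x ∈ A, ∀ y ∈ A, Adj x y → x = y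

/-- the rows used by `A` -/
def rows (A : Finset (Cell n)) : Finset (Fin n) := A.image Prod.fst

/-- the columns used by `A` -/
def cols (A : Finset (Cell n)) : Finset (Fin n) := A.image Prod.snd

lemma Adj.symm {x y : Cell n} (h : Adj x y) : Adj y x := by
  rcases h with h | h
  · exact Or.inl h.symm
  · exact Or.inr h.symm

lemma Adj.refl (x : Cell n) : Adj x x := Or.inl rfl

lemma mem_rows {A : Finset (Cell n)} {i : Fin n} : i ∈ rows A ↔ ∃ j, (i, j) ∈ A := by
  simp [rows]

lemma mem_cols {A : Finset (Cell n)} {j : Fin n} : j ∈ cols A ↔ ∃ i, (i, j) ∈ A := by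
  simp [cols]

lemma rows_mono {A B : Finset (Cell n)} (h : A ⊆ B) : rows A ⊆ rows B := image_subset_image h
lemma cols_mono {A B : Finset (Cell n)} (h : A ⊆ B) : cols A ⊆ cols B := image_subset_image h

lemma rows_union (A B : Finset (Cell n)) : rows (A ∪ B) = rows A ∪ rows B := image_union ..
lemma cols_union (A B : Finset (Cell n)) : cols (A ∪ B) = cols A ∪ cols B := image_union ..

lemma IsPl.mono {A B : Finset (Cell n)} (hB : IsPl B) (h : A ⊆ B) : IsPl A :=
  fun x hx y hy hxy => hB x (h hx) y (h hy) hxy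

lemma IsPl.card_rows {A : Finset (Cell n)} (h : IsPl A) : (rows A).card = A.card :=
  card_image_of_injOn fun x hx y hy hxy => h x hx y hy (Or.inl hxy)

lemma IsPl.card_cols {A : Finset (Cell n)} (h : IsPl A) : (cols A).card = A.card :=
  card_image_of_injOn fun x hx y hy hxy => h x hx y hy (Or.inr hxy)

/-- `C` is closed in `U` -/
def Closed (U C : Finset (Cell n)) : Prop := ∀ x ∈ C, ∀ y ∈ U, Adj x y → y ∈ C

open Classical in
/-- the components of `U` -/
noncomputable def comps (U : Finset (Cell n)) : Finset (Finset (Cell n)) :=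
  U.powerset.filter (fun C => C.Nonempty ∧ Closed U C ∧
    ∀ C' ⊆ C, C'.Nonempty → Closed U C' → C' = C)

lemma mem_comps {U C : Finset (Cell n)} : C ∈ comps U ↔ C ⊆ U ∧ C.Nonempty ∧ Closed U C ∧
    ∀ C' ⊆ C, C'.Nonempty → Closed U C' → C' = C := by
  simp [comps]

lemma comps_eq {U C C' : Finset (Cell n)} (hC : C ∈ comps U) (hC' : C' ∈ comps U) {x : Cell n}
    (hx : x ∈ C) (hx' : x ∈ C') : C = C' := by
  rw [mem_comps] at hC hC'
  have hcl : Closed U (C ∩ C') := by
    intro y hy z hz hyz
    rw [mem_inter] at hy ⊢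
    exact ⟨hC.2.2.1 y hy.1 z hz hyz, hC'.2.2.1 y hy.2 z hz hyz⟩
  have hne : (C ∩ C').Nonempty := ⟨x, mem_inter.2 ⟨hx, hx'⟩⟩
  rw [← hC.2.2.2 _ inter_subset_left hne hcl]
  exact hC'.2.2.2 _ inter_subset_right hne hcl

lemma exists_comps {U : Finset (Cell n)} {x : Cell n} (hx : x ∈ U) : ∃ C ∈ comps U, x ∈ C := by
  classical
  -- a closed set containing `x` of minimal cardinality
  have hex : ∃ k, ∃ C, C ⊆ U ∧ Closed U C ∧ x ∈ C ∧ C.card = k :=
    ⟨U.card, U, subset_rfl, fun _ _ y hy _ => hy, hx, rfl⟩
  obtain ⟨C, hCU, hcl, hxC, hcard⟩ := Nat.find_spec hex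
  have hmin : ∀ C', C' ⊆ U → Closed U C' → x ∈ C' → C.card ≤ C'.card := by
    intro C' h1 h2 h3
    rw [hcard]
    exact Nat.find_min' hex ⟨C', h1, h2, h3, rfl⟩
  refine ⟨C, mem_comps.2 ⟨hCU, ⟨x, hxC⟩, hcl, ?_⟩, hxC⟩
  intro C' hC' hne hcl'
  by_cases hxC' : x ∈ C'
  · exact eq_of_subset_of_card_le hC' (hmin C' (hC'.trans hCU) hcl' hxC')
  · exfalso
    have hcl2 : Closed U (C \ C') := by
      intro y hy z hz hyz
      rw [mem_sdiff] at hy ⊢
      refine ⟨hcl y hy.1 z hz hyz, fun hz' => hy.2 ?_⟩
      exact hcl' z hz' y (hCU hy.1) hyz.symm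
    have h1 := hmin (C \ C') (sdiff_subset.trans hCU) hcl2 (mem_sdiff.2 ⟨hxC, hxC'⟩)
    have h2 : (C \ C').card < C.card := by
      apply card_lt_card
      refine ⟨sdiff_subset, fun h => ?_⟩
      obtain ⟨y, hy⟩ := hne
      exact (mem_sdiff.1 (h (hC' hy))).2 hy
    omega

/-- the number of cells of a subset is the sum over the components -/
lemma sum_comps {U A : Finset (Cell n)} (hA : A ⊆ U) :
    ∑ C ∈ comps U, (A ∩ C).card = A.card := by
  have h1 : ∀ C : Finset (Cell n), (A ∩ C).card = ∑ x ∈ A, if x ∈ C then 1 else 0 := by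
    intro C
    rw [← filter_mem_eq_inter, card_filter]
  simp_rw [h1]
  rw [sum_comm, card_eq_sum_ones]
  refine sum_congr rfl fun x hx => ?_
  obtain ⟨C, hC, hxC⟩ := exists_comps (hA hx)
  rw [sum_eq_single_of_mem C hC]
  · rw [if_pos hxC]
  · intro C' hC' hne
    rw [if_neg]
    intro hxC'
    exact hne (comps_eq hC' hC hxC' hxC)

/-- a component with `m` cells touches at most `m + 1` rows and columns -/
lemma comps_card {U C : Finset (Cell n)} (hC : C ∈ comps U) :
    (rows C).card + (cols C).card ≤ C.card + 1 := by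
  classical
  rw [mem_comps] at hC
  obtain ⟨hCU, ⟨x, hx⟩, hcl, hmin⟩ := hC
  -- maximal subset satisfying the inequality
  have key : ∀ k : ℕ, ∀ S : Finset (Cell n), S ⊆ C → S.Nonempty → (C \ S).card = k →
      (rows S).card + (cols S).card ≤ S.card + 1 →
      (rows C).card + (cols C).card ≤ C.card + 1 := by
    intro k
    induction k with
    | zero =>
      intro S hS _ hk h
      have : C ⊆ S := by
        rw [card_eq_zero] at hk
        exact sdiff_eq_empty_iff_subset.1 hk
      rw [subset_antisymm this hS]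
      exact h
    | succ k ih =>
      intro S hS hne hk h
      have hncl : ¬ Closed U S := by
        intro hclS
        have := hmin S hS hne hclS
        rw [this, sdiff_self] at hk
        simp at hk
      unfold Closed at hncl
      push Not at hncl
      obtain ⟨y, hy, z, hz, hyz, hzS⟩ := hncl
      have hzC : z ∈ C := hcl y (hS hy) z hz hyz
      refine ih (insert z S) (insert_subset hzC hS) ⟨z, mem_insert_self _ _⟩ ?_ ?_
      · have h1 : C \ insert z S = (C \ S).erase z := by
          ext w
          simp only [mem_sdiff, mem_insert, mem_erase]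
          tauto
        rw [h1, card_erase_of_mem (mem_sdiff.2 ⟨hzC, hzS⟩), hk]
        rfl
      · rw [card_insert_of_notMem hzS]
        have hr : rows (insert z S) = insert z.1 (rows S) := image_insert ..
        have hc : cols (insert z S) = insert z.2 (cols S) := image_insert ..
        rw [hr, hc]
        have h2 := card_insert_le z.1 (rows S)
        have h3 := card_insert_le z.2 (cols S)
        rcases hyz with hyz | hyz
        · have : z.1 ∈ rows S := by
            rw [← hyz]
            exact mem_image_of_mem _ hy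
          rw [insert_eq_of_mem this]
          omega
        · have : z.2 ∈ cols S := by
            rw [← hyz]
            exact mem_image_of_mem _ hy
          rw [insert_eq_of_mem this]
          omega
  refine key _ {x} (singleton_subset_iff.2 hx) ⟨x, mem_singleton_self x⟩ rfl ?_
  simp [rows, cols]

/-- the two placements are balanced on every component -/
lemma comps_exc {p : Pr n} (h1 : IsPl p.1) {C : Finset (Cell n)}
    (hC : C ∈ comps (p.1 ∪ p.2)) : (p.1 ∩ C).card ≤ (p.2 ∩ C).card + 1 := by
  have hc := comps_card hC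
  have hCU := (mem_comps.1 hC).1
  have h3 : (p.1 ∩ C).card ≤ (rows C).card := by
    rw [← (h1.mono inter_subset_left).card_rows]
    exact card_le_card (rows_mono inter_subset_right)
  have h4 : (p.1 ∩ C).card ≤ (cols C).card := by
    rw [← (h1.mono inter_subset_left).card_cols]
    exact card_le_card (cols_mono inter_subset_right)
  have h5 : C.card ≤ (p.1 ∩ C).card + (p.2 ∩ C).card := by
    calc C.card = ((p.1 ∪ p.2) ∩ C).card := by rw [inter_eq_right.2 hCU]
      _ = ((p.1 ∩ C) ∪ (p.2 ∩ C)).card := by rw [union_inter_distrib_right]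
      _ ≤ _ := card_union_le _ _
  omega

lemma comps_exc' {p : Pr n} (h2 : IsPl p.2) {C : Finset (Cell n)}
    (hC : C ∈ comps (p.1 ∪ p.2)) : (p.2 ∩ C).card ≤ (p.1 ∩ C).card + 1 := by
  have : C ∈ comps ((p.2, p.1).1 ∪ (p.2, p.1).2) := by
    rw [union_comm]
    exact hC
  exact comps_exc (p := (p.2, p.1)) h2 this

open Classical in
/-- the components on which the first set is bigger by one -/
noncomputable def up (p : Pr n) : Finset (Finset (Cell n)) :=
  (comps (p.1 ∪ p.2)).filter (fun C => (p.1 ∩ C).card = (p.2 ∩ C).card + 1)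

open Classical in
/-- the components on which the second set is bigger by one -/
noncomputable def down (p : Pr n) : Finset (Finset (Cell n)) :=
  (comps (p.1 ∪ p.2)).filter (fun C => (p.2 ∩ C).card = (p.1 ∩ C).card + 1)

lemma mem_up {p : Pr n} {C : Finset (Cell n)} : C ∈ up p ↔
    C ∈ comps (p.1 ∪ p.2) ∧ (p.1 ∩ C).card = (p.2 ∩ C).card + 1 := by
  simp [up]

lemma mem_down {p : Pr n} {C : Finset (Cell n)} : C ∈ down p ↔
    C ∈ comps (p.1 ∪ p.2) ∧ (p.2 ∩ C).card = (p.1 ∩ C).card + 1 := by
  simp [down]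

/-- the difference of the numbers of odd components of both kinds -/
lemma card_up_sub_card_down {p : Pr n} (h1 : IsPl p.1) (h2 : IsPl p.2) :
    ((up p).card : ℤ) - (down p).card = (p.1.card : ℤ) - p.2.card := by
  classical
  have e1 : (p.1.card : ℤ) = ∑ C ∈ comps (p.1 ∪ p.2), ((p.1 ∩ C).card : ℤ) := by
    rw [← Nat.cast_sum, sum_comps subset_union_left]
  have e2 : (p.2.card : ℤ) = ∑ C ∈ comps (p.1 ∪ p.2), ((p.2 ∩ C).card : ℤ) := by
    rw [← Nat.cast_sum, sum_comps subset_union_right]
  have e3 : ((up p).card : ℤ) = ∑ C ∈ comps (p.1 ∪ p.2),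
      if (p.1 ∩ C).card = (p.2 ∩ C).card + 1 then (1 : ℤ) else 0 := by
    unfold up
    rw [card_filter]
    push_cast
    rfl
  have e4 : ((down p).card : ℤ) = ∑ C ∈ comps (p.1 ∪ p.2),
      if (p.2 ∩ C).card = (p.1 ∩ C).card + 1 then (1 : ℤ) else 0 := by
    unfold down
    rw [card_filter]
    push_cast
    rfl
  rw [e1, e2, e3, e4, ← sum_sub_distrib, ← sum_sub_distrib]
  refine sum_congr rfl fun C hC => ?_
  have h3 := comps_exc h1 hC
  have h4 := comps_exc' h2 hC
  split_ifs <;> omega

/-- exchanging the two sets on `C` -/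
def flip (C : Finset (Cell n)) (p : Pr n) : Pr n :=
  (p.1 \ C ∪ p.2 ∩ C, p.2 \ C ∪ p.1 ∩ C)

lemma flip_union (C : Finset (Cell n)) (p : Pr n) :
    (flip C p).1 ∪ (flip C p).2 = p.1 ∪ p.2 := by
  ext x
  simp only [flip, mem_union, mem_sdiff, mem_inter]
  tauto

lemma flip_flip (C : Finset (Cell n)) (p : Pr n) : flip C (flip C p) = p := by
  refine Prod.ext ?_ ?_ <;>
  · ext x
    simp only [flip, mem_union, mem_sdiff, mem_inter]
    tauto

lemma flip_comm {C C' : Finset (Cell n)} (h : Disjoint C C') (p : Pr n) :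
    flip C (flip C' p) = flip C' (flip C p) := by
  have h' : ∀ x, x ∈ C → x ∉ C' := fun x hx hx' => (disjoint_left.1 h) hx hx'
  refine Prod.ext ?_ ?_ <;>
  · ext x
    have := h' x
    simp only [flip, mem_union, mem_sdiff, mem_inter]
    tauto

lemma flip_inter_self (C : Finset (Cell n)) (p : Pr n) :
    (flip C p).1 ∩ C = p.2 ∩ C ∧ (flip C p).2 ∩ C = p.1 ∩ C := by
  constructor <;>
  · ext x
    simp only [flip, mem_union, mem_sdiff, mem_inter]
    tauto

lemma flip_inter_of_disjoint {C C' : Finset (Cell n)} (h : Disjoint C C') (p : Pr n) :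
    (flip C p).1 ∩ C' = p.1 ∩ C' ∧ (flip C p).2 ∩ C' = p.2 ∩ C' := by
  have h' : ∀ x, x ∈ C → x ∉ C' := fun x hx hx' => (disjoint_left.1 h) hx hx'
  constructor <;>
  · ext x
    have := h' x
    simp only [flip, mem_union, mem_sdiff, mem_inter]
    tauto

lemma comps_disjoint {U C C' : Finset (Cell n)} (hC : C ∈ comps U) (hC' : C' ∈ comps U)
    (hne : C ≠ C') : Disjoint C C' :=
  disjoint_left.2 fun _ hx hx' => hne (comps_eq hC hC' hx hx')

lemma mem_up_flip_self {p : Pr n} {C : Finset (Cell n)} : C ∈ up (flip C p) ↔ C ∈ down p := by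
  rw [mem_up, mem_down, flip_union, (flip_inter_self C p).1, (flip_inter_self C p).2]

lemma mem_down_flip_self {p : Pr n} {C : Finset (Cell n)} : C ∈ down (flip C p) ↔ C ∈ up p := by
  rw [mem_up, mem_down, flip_union, (flip_inter_self C p).1, (flip_inter_self C p).2]

lemma mem_up_flip {p : Pr n} {C C' : Finset (Cell n)} (hC : C ∈ comps (p.1 ∪ p.2))
    (hne : C' ≠ C) : C' ∈ up (flip C p) ↔ C' ∈ up p := by
  rw [mem_up, mem_up, flip_union]
  refine and_congr_right fun hC' => ?_
  have := flip_inter_of_disjoint (comps_disjoint hC hC' hne.symm) p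
  rw [this.1, this.2]

lemma mem_down_flip {p : Pr n} {C C' : Finset (Cell n)} (hC : C ∈ comps (p.1 ∪ p.2))
    (hne : C' ≠ C) : C' ∈ down (flip C p) ↔ C' ∈ down p := by
  rw [mem_down, mem_down, flip_union]
  refine and_congr_right fun hC' => ?_
  have := flip_inter_of_disjoint (comps_disjoint hC hC' hne.symm) p
  rw [this.1, this.2]

lemma isPl_flip {p : Pr n} (h1 : IsPl p.1) (h2 : IsPl p.2) {C : Finset (Cell n)}
    (hC : C ∈ comps (p.1 ∪ p.2)) : IsPl (flip C p).1 ∧ IsPl (flip C p).2 := by
  have hcl := (mem_comps.1 hC).2.2.1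
  have key : ∀ A B : Finset (Cell n), A ⊆ p.1 ∪ p.2 → B ⊆ p.1 ∪ p.2 → IsPl A → IsPl B →
      IsPl (A \ C ∪ B ∩ C) := by
    intro A B hA hB hpA hpB x hx y hy hxy
    rw [mem_union, mem_sdiff, mem_inter] at hx hy
    rcases hx with hx | hx <;> rcases hy with hy | hy
    · exact hpA x hx.1 y hy.1 hxy
    · exact absurd (hcl y hy.2 x (hA hx.1) hxy.symm) hx.2
    · exact absurd (hcl x hx.2 y (hA hy.1) hxy) hy.2
    · exact hpB x hx.1 y hy.1 hxy
  exact ⟨key _ _ subset_union_left subset_union_right h1 h2,
    key _ _ subset_union_right subset_union_left h2 h1⟩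

lemma card_flip (C : Finset (Cell n)) (p : Pr n) :
    (flip C p).1.card + (p.1 ∩ C).card = p.1.card + (p.2 ∩ C).card ∧
    (flip C p).2.card + (p.2 ∩ C).card = p.2.card + (p.1 ∩ C).card := by
  have key : ∀ A B : Finset (Cell n), (A \ C ∪ B ∩ C).card + (A ∩ C).card =
      A.card + (B ∩ C).card := by
    intro A B
    have hd : Disjoint (A \ C) (B ∩ C) := by
      rw [disjoint_left]
      intro x hx hx'
      exact (mem_sdiff.1 hx).2 (mem_inter.1 hx').2
    rw [card_union_of_disjoint hd]
    have := card_sdiff_add_card_inter A C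
    omega
  exact ⟨key _ _, key _ _⟩

lemma card_flip_up {C : Finset (Cell n)} {p : Pr n} (h : C ∈ up p) :
    (flip C p).1.card + 1 = p.1.card ∧ (flip C p).2.card = p.2.card + 1 := by
  have h1 := card_flip C p
  have h2 := (mem_up.1 h).2
  omega

lemma card_flip_down {C : Finset (Cell n)} {p : Pr n} (h : C ∈ down p) :
    (flip C p).1.card = p.1.card + 1 ∧ (flip C p).2.card + 1 = p.2.card := by
  have h1 := card_flip C p
  have h2 := (mem_down.1 h).2
  omega

/-- the lowering operator -/
noncomputable def F (w : Pr n → ℂ) : Pr n → ℂ := fun p => ∑ C ∈ down p, w (flip C p)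

/-- the raising operator -/
noncomputable def E (w : Pr n → ℂ) : Pr n → ℂ := fun p => ∑ C ∈ up p, w (flip C p)

lemma comm_EF (w : Pr n → ℂ) (p : Pr n) :
    E (F w) p - F (E w) p = (((up p).card : ℂ) - (down p).card) * w p := by
  classical
  have h1 : E (F w) p = (up p).card * w p +
      ∑ C ∈ up p, ∑ C' ∈ down p, w (flip C' (flip C p)) := by
    have : (up p).card * w p = ∑ C ∈ up p, w p := by rw [sum_const, nsmul_eq_mul]
    rw [this, ← sum_add_distrib]
    refine sum_congr rfl fun C hC => ?_
    have hCd : C ∈ down (flip C p) := mem_down_flip_self.2 hC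
    have hCn : C ∉ down p := by
      rw [mem_up] at hC
      rw [mem_down]
      omega
    have hset : down (flip C p) = insert C (down p) := by
      ext C'
      rw [mem_insert]
      by_cases hne : C' = C
      · subst hne
        simp [hCd]
      · rw [mem_down_flip (mem_up.1 hC).1 hne]
        simp [hne]
    unfold F
    rw [hset, sum_insert hCn, flip_flip]
  have h2 : F (E w) p = (down p).card * w p +
      ∑ C' ∈ down p, ∑ C ∈ up p, w (flip C (flip C' p)) := by
    have : (down p).card * w p = ∑ C ∈ down p, w p := by rw [sum_const, nsmul_eq_mul]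
    rw [this, ← sum_add_distrib]
    refine sum_congr rfl fun C hC => ?_
    have hCd : C ∈ up (flip C p) := mem_up_flip_self.2 hC
    have hCn : C ∉ up p := by
      rw [mem_down] at hC
      rw [mem_up]
      omega
    have hset : up (flip C p) = insert C (up p) := by
      ext C'
      rw [mem_insert]
      by_cases hne : C' = C
      · subst hne
        simp [hCd]
      · rw [mem_up_flip (mem_down.1 hC).1 hne]
        simp [hne]
    unfold E
    rw [hset, sum_insert hCn, flip_flip]
  rw [h1, h2, sum_comm (s := down p)]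
  have h3 : ∑ C ∈ up p, ∑ C' ∈ down p, w (flip C' (flip C p)) =
      ∑ C ∈ up p, ∑ C' ∈ down p, w (flip C (flip C' p)) := by
    refine sum_congr rfl fun C hC => sum_congr rfl fun C' hC' => ?_
    rw [flip_comm]
    refine comps_disjoint (mem_down.1 hC').1 (mem_up.1 hC).1 ?_
    rintro rfl
    rw [mem_up] at hC
    rw [mem_down] at hC'
    omega
  rw [h3]
  ring

/-- supported on pairs of placements of sizes `a` and `b` -/
def Supp (a b : ℕ) (w : Pr n → ℂ) : Prop :=
  ∀ p, w p ≠ 0 → IsPl p.1 ∧ IsPl p.2 ∧ p.1.card = a ∧ p.2.card = b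

lemma supp_F {a b : ℕ} {w : Pr n → ℂ} (h : Supp (a + 1) b w) : Supp a (b + 1) (F w) := by
  intro p hp
  obtain ⟨C, hC, hne⟩ := exists_ne_zero_of_sum_ne_zero hp
  obtain ⟨h1, h2, h3, h4⟩ := h _ hne
  have hC' : C ∈ comps ((flip C p).1 ∪ (flip C p).2) := by
    rw [flip_union]
    exact (mem_down.1 hC).1
  have h5 := isPl_flip h1 h2 hC'
  rw [flip_flip] at h5
  have h6 := card_flip_down hC
  exact ⟨h5.1, h5.2, by omega, by omega⟩

lemma supp_E {a b : ℕ} {w : Pr n → ℂ} (h : Supp a (b + 1) w) : Supp (a + 1) b (E w) := by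
  intro p hp
  obtain ⟨C, hC, hne⟩ := exists_ne_zero_of_sum_ne_zero hp
  obtain ⟨h1, h2, h3, h4⟩ := h _ hne
  have hC' : C ∈ comps ((flip C p).1 ∪ (flip C p).2) := by
    rw [flip_union]
    exact (mem_up.1 hC).1
  have h5 := isPl_flip h1 h2 hC'
  rw [flip_flip] at h5
  have h6 := card_flip_up hC
  exact ⟨h5.1, h5.2, by omega, by omega⟩

lemma F_zero : F (0 : Pr n → ℂ) = 0 := by
  funext p
  simp [F]

lemma E_zero : E (0 : Pr n → ℂ) = 0 := by
  funext p
  simp [E]

lemma F_smul (c : ℂ) (w : Pr n → ℂ) : F (c • w) = c • F w := by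
  funext p
  simp [F, mul_sum]

lemma E_smul (c : ℂ) (w : Pr n → ℂ) : E (c • w) = c • E w := by
  funext p
  simp [E, mul_sum]

lemma supp_E_eq_zero {a : ℕ} {w : Pr n → ℂ} (h : Supp a 0 w) : E w = 0 := by
  funext p
  by_contra hp
  obtain ⟨C, hC, hne⟩ := exists_ne_zero_of_sum_ne_zero hp
  obtain ⟨h1, h2, h3, h4⟩ := h _ hne
  have h6 := card_flip_up hC
  omega

lemma comm_supp {a b : ℕ} {w : Pr n → ℂ} (h : Supp a b w) :
    F (E w) = E (F w) - ((a : ℂ) - b) • w := by
  funext p
  have h1 := comm_EF w p
  rw [Pi.sub_apply, Pi.smul_apply, smul_eq_mul]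
  by_cases hp : w p = 0
  · rw [hp, mul_zero] at h1 ⊢
    rw [sub_zero, ← sub_eq_zero, ← neg_eq_zero, neg_sub]
    exact h1
  · obtain ⟨h2, h3, h4, h5⟩ := h p hp
    have h6 := card_up_sub_card_down h2 h3
    rw [h4, h5] at h6
    have h7 : ((up p).card : ℂ) - (down p).card = (a : ℂ) - b := by exact_mod_cast congrArg (Int.cast : ℤ → ℂ) h6
    rw [h7] at h1
    rw [← h1]
    ring

/-- the lowering operator is injective on functions of positive weight -/
theorem F_injective {a b : ℕ} (hab : b < a) {w : Pr n → ℂ} (h : Supp a b w) (hF : F w = 0) :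
    w = 0 := by
  have hs : ∀ j ≤ b, Supp (a + j) (b - j) (E^[j] w) := by
    intro j
    induction j with
    | zero => intro _; exact h
    | succ j ih =>
      intro hj
      rw [Function.iterate_succ_apply']
      have h1 := ih (by omega)
      have h2 : b - j = (b - (j + 1)) + 1 := by omega
      rw [h2] at h1
      exact supp_E h1
  have hF' : ∀ j ≤ b, F (E^[j + 1] w) = (-(((j : ℂ) + 1) * ((a : ℂ) - b + j))) • E^[j] w := by
    intro j
    induction j with
    | zero =>
      intro _
      rw [Function.iterate_succ_apply', Function.iterate_zero, id, comm_supp h, hF, E_zero,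
        zero_sub, ← neg_smul]
      congr 1
      push_cast
      ring
    | succ j ih =>
      intro hj
      rw [Function.iterate_succ_apply', comm_supp (hs (j + 1) hj), ih (by omega), E_smul,
        ← Function.iterate_succ_apply' E j w, ← sub_smul]
      congr 1
      rw [Nat.cast_sub hj]
      push_cast
      ring
  have hend : E^[b + 1] w = 0 := by
    rw [Function.iterate_succ_apply']
    have := hs b le_rfl
    rw [Nat.sub_self] at this
    exact supp_E_eq_zero this
  have hall : ∀ j ≤ b + 1, E^[b + 1 - j] w = 0 := by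
    intro j
    induction j with
    | zero => intro _; exact hend
    | succ j ih =>
      intro hj
      have h1 := ih (by omega)
      have h2 := hF' (b + 1 - (j + 1)) (by omega)
      have h3 : b + 1 - (j + 1) + 1 = b + 1 - j := by omega
      rw [h3, h1, F_zero] at h2
      rcases smul_eq_zero.1 h2.symm with h4 | h4
      · exfalso
        rw [neg_eq_zero, mul_eq_zero] at h4
        rcases h4 with h4 | h4
        · exact Nat.cast_add_one_ne_zero _ h4
        · have h5 : (a : ℂ) - b + ((b + 1 - (j + 1) : ℕ) : ℂ) =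
              ((a - b + (b + 1 - (j + 1)) : ℕ) : ℂ) := by
            push_cast [Nat.cast_sub hab.le]
            ring
          rw [h5, Nat.cast_eq_zero] at h4
          omega
      · exact h4
  have := hall (b + 1) le_rfl
  simpa using this

end Pool.Agent.Helper30.PML
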