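import Pool.Agent.Helper30.PML.Inj

set_option autoImplicit false

/-! # Strong equivariant log-concavity in the stable range -/

namespace Pool.Agent.Helper30.PML

open Finset MvPolynomial TensorProduct Function

variable {n : ℕ}

lemma rename_mon (g : Gp n) (A : Finset (Cell n)) :
    rename (Prod.map ⇑g.1 ⇑g.2) (mon A) = mon (act g A) := by
  unfold mon act
  rw [map_prod, prod_map]
  refine prod_congr rfl fun x _ => ?_
  rw [rename_X]
  rfl

/-- the hypothesis on the action on the quotients -/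
def IsAct (ρ : (d : ℕ) → Gp n → (M n d →ₗ[ℂ] M n d)) : Prop :=
  ∀ (d : ℕ) (g : Gp n) (x y : ↥(MvPolynomial.homogeneousSubmodule (Cell n) ℂ d)),
    (y : MvPolynomial (Cell n) ℂ) = MvPolynomial.rename (Prod.map ⇑g.1 ⇑g.2)
      (x : MvPolynomial (Cell n) ℂ) →
    ρ d g (Submodule.Quotient.mk x) = Submodule.Quotient.mk y

lemma IsAct.cls_mon {ρ : (d : ℕ) → Gp n → (M n d →ₗ[ℂ] M n d)} (hρ : IsAct ρ) (d : ℕ)
    (g : Gp n) (A : Finset (Cell n)) : ρ d g (cls n d (mon A)) = cls n d (mon (act g A)) := by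
  by_cases hA : A.card = d
  · have h1 : (mon A).IsHomogeneous d := hA ▸ mon_homog A
    have h2 : (mon (act g A)).IsHomogeneous d := by
      have := mon_homog (act g A)
      rwa [card_act, hA] at this
    rw [cls_homog h1, cls_homog h2]
    exact hρ d g _ _ (rename_mon g A).symm
  · rw [cls_ne (mon_homog A) hA, cls_ne (mon_homog (act g A)) (by rwa [card_act]), map_zero]

/-- the element `rename` of the homogeneous submodule -/
lemma rename_homog {d : ℕ} (g : Gp n) (x : ↥(MvPolynomial.homogeneousSubmodule (Cell n) ℂ d)) :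
    MvPolynomial.rename (Prod.map ⇑g.1 ⇑g.2) (x : MvPolynomial (Cell n) ℂ) ∈
      MvPolynomial.homogeneousSubmodule (Cell n) ℂ d := by
  rw [mem_homogeneousSubmodule]
  exact ((mem_homogeneousSubmodule _ _).1 x.2).rename_isHomogeneous

lemma IsAct.mul {ρ : (d : ℕ) → Gp n → (M n d →ₗ[ℂ] M n d)} (hρ : IsAct ρ) (d : ℕ)
    (g h : Gp n) : ρ d (g * h) = ρ d g ∘ₗ ρ d h := by
  refine LinearMap.ext fun y => ?_
  obtain ⟨x, rfl⟩ := Submodule.Quotient.mk_surjective _ y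
  rw [LinearMap.comp_apply, hρ d h x ⟨_, rename_homog h x⟩ rfl,
    hρ d g ⟨_, rename_homog h x⟩ ⟨_, rename_homog g ⟨_, rename_homog h x⟩⟩ rfl]
  refine hρ d (g * h) x _ ?_
  simp only
  rw [rename_rename]
  rfl

lemma IsAct.one {ρ : (d : ℕ) → Gp n → (M n d →ₗ[ℂ] M n d)} (hρ : IsAct ρ) (d : ℕ) :
    ρ d 1 = LinearMap.id := by
  refine LinearMap.ext fun y => ?_
  obtain ⟨x, rfl⟩ := Submodule.Quotient.mk_surjective _ y
  rw [LinearMap.id_apply]
  refine hρ d 1 x x ?_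
  have : Prod.map ⇑(1 : Gp n).1 ⇑(1 : Gp n).2 = (id : Cell n → Cell n) := by
    funext x
    rfl
  rw [this, rename_id_apply]

lemma IsAct.qm {ρ : (d : ℕ) → Gp n → (M n d →ₗ[ℂ] M n d)} (hρ : IsAct ρ) (a b : ℕ)
    (g : Gp n) (w : Pr n → ℂ) :
    TensorProduct.map (ρ a g) (ρ b g) (qm n a b w) = qm n a b (actf g w) := by
  change TensorProduct.map (ρ a g) (ρ b g)
    (∑ p, w p • (cls n a (mon p.1) ⊗ₜ[ℂ] cls n b (mon p.2))) =
    ∑ p, actf g w p • (cls n a (mon p.1) ⊗ₜ[ℂ] cls n b (mon p.2))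
  rw [map_sum]
  refine Fintype.sum_equiv ⟨actp g, actp g⁻¹, actp_inv_actp g, actp_actp_inv g⟩ _ _ fun p => ?_
  rw [map_smul, TensorProduct.map_tmul, hρ.cls_mon, hρ.cls_mon]
  unfold actf
  simp only [Equiv.coe_fn_mk, actp_inv_actp]
  rfl

lemma actW_mul (a b : ℕ) (g h : Gp n) : actW n a b (g * h) = actW n a b g ∘ₗ actW n a b h := by
  refine LinearMap.ext fun w => Subtype.ext ?_
  funext p
  change w.1 (actp (g * h)⁻¹ p) = w.1 (actp h⁻¹ (actp g⁻¹ p))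
  rw [mul_inv_rev, actp_mul]

lemma lin_comp_sum {ι V₁ V₂ V₃ : Type*} [AddCommGroup V₁] [AddCommGroup V₂] [AddCommGroup V₃]
    [Module ℂ V₁] [Module ℂ V₂] [Module ℂ V₃] (t : Finset ι) (f : V₂ →ₗ[ℂ] V₃)
    (g : ι → V₁ →ₗ[ℂ] V₂) : f ∘ₗ (∑ i ∈ t, g i) = ∑ i ∈ t, f ∘ₗ g i := by
  refine LinearMap.ext fun x => ?_
  simp [LinearMap.sum_apply, map_sum]

lemma lin_sum_comp {ι V₁ V₂ V₃ : Type*} [AddCommGroup V₁] [AddCommGroup V₂] [AddCommGroup V₃]
    [Module ℂ V₁] [Module ℂ V₂] [Module ℂ V₃] (t : Finset ι) (f : V₁ →ₗ[ℂ] V₂)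
    (g : ι → V₂ →ₗ[ℂ] V₃) : (∑ i ∈ t, g i) ∘ₗ f = ∑ i ∈ t, g i ∘ₗ f := by
  refine LinearMap.ext fun x => ?_
  simp [LinearMap.sum_apply]

/-- the strong form of equivariant log-concavity in the stable range -/
theorem strong {a b : ℕ} (hab : b ≤ a) (hn : 2 * (a + b + 1) ≤ n)
    {ρ : (d : ℕ) → Gp n → (M n d →ₗ[ℂ] M n d)} (hρ : IsAct ρ) :
    ∃ φ : (M n (a + 1) ⊗[ℂ] M n b) →ₗ[ℂ] (M n a ⊗[ℂ] M n (b + 1)),
      Function.Injective φ ∧ ∀ g : Gp n,
        φ ∘ₗ TensorProduct.map (ρ (a + 1) g) (ρ b g) =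
          TensorProduct.map (ρ a g) (ρ (b + 1) g) ∘ₗ φ := by
  classical
  set R : Gp n → (M n (a + 1) ⊗[ℂ] M n b) →ₗ[ℂ] (M n (a + 1) ⊗[ℂ] M n b) :=
    fun g => TensorProduct.map (ρ (a + 1) g) (ρ b g) with hR
  have hRmul : ∀ g h, R (g * h) = R g ∘ₗ R h := by
    intro g h
    rw [hR]
    simp only
    rw [hρ.mul, hρ.mul, TensorProduct.map_comp]
  have hRone : R 1 = LinearMap.id := by
    rw [hR]
    simp only
    rw [hρ.one, hρ.one, TensorProduct.map_id]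
  -- the surjection from `W`
  let p : W n (a + 1) b →ₗ[ℂ] (M n (a + 1) ⊗[ℂ] M n b) :=
    (qm n (a + 1) b).comp (W n (a + 1) b).subtype
  have hp : LinearMap.range p = ⊤ := by
    rw [LinearMap.range_eq_top]
    intro y
    obtain ⟨w, hw, hwy⟩ := qm_surj n (a + 1) b y
    exact ⟨⟨w, hw⟩, hwy⟩
  have hpR : ∀ g, p ∘ₗ actW n (a + 1) b g = R g ∘ₗ p := by
    intro g
    refine LinearMap.ext fun w => ?_
    exact (hρ.qm (a + 1) b g w.1).symm
  obtain ⟨s₀, hs₀⟩ := p.exists_rightInverse_of_surjective hp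
  set N : ℂ := (Fintype.card (Gp n) : ℂ) with hN
  have hN0 : N ≠ 0 := by
    rw [hN]
    exact_mod_cast Fintype.card_ne_zero
  let s : (M n (a + 1) ⊗[ℂ] M n b) →ₗ[ℂ] W n (a + 1) b :=
    N⁻¹ • ∑ g : Gp n, (actW n (a + 1) b g) ∘ₗ s₀ ∘ₗ R g⁻¹
  have hps : p ∘ₗ s = LinearMap.id := by
    change p ∘ₗ (N⁻¹ • ∑ g : Gp n, (actW n (a + 1) b g) ∘ₗ s₀ ∘ₗ R g⁻¹) = LinearMap.id
    rw [LinearMap.comp_smul, lin_comp_sum]
    have h1 : ∀ g : Gp n, p ∘ₗ (actW n (a + 1) b g) ∘ₗ s₀ ∘ₗ R g⁻¹ = LinearMap.id := by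
      intro g
      rw [← LinearMap.comp_assoc, hpR, LinearMap.comp_assoc, ← LinearMap.comp_assoc (R g⁻¹), hs₀,
        LinearMap.id_comp, ← hRmul, mul_inv_cancel, hRone]
    rw [sum_congr rfl fun g _ => h1 g, sum_const, card_univ, ← Nat.cast_smul_eq_nsmul ℂ, smul_smul,
      ← hN, inv_mul_cancel₀ hN0, one_smul]
  have hsR : ∀ h, s ∘ₗ R h = actW n (a + 1) b h ∘ₗ s := by
    intro h
    change (N⁻¹ • ∑ g : Gp n, (actW n (a + 1) b g) ∘ₗ s₀ ∘ₗ R g⁻¹) ∘ₗ R h =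
      actW n (a + 1) b h ∘ₗ (N⁻¹ • ∑ g : Gp n, (actW n (a + 1) b g) ∘ₗ s₀ ∘ₗ R g⁻¹)
    rw [LinearMap.smul_comp, LinearMap.comp_smul, lin_sum_comp, lin_comp_sum]
    congr 1
    rw [← Equiv.sum_comp (Equiv.mulLeft h)]
    refine sum_congr rfl fun g _ => ?_
    rw [Equiv.coe_mulLeft, actW_mul, LinearMap.comp_assoc, LinearMap.comp_assoc,
      LinearMap.comp_assoc, ← hRmul]
    congr 4
    simp only
    rw [mul_inv_rev, inv_mul_cancel_right]
  refine ⟨(qm n a (b + 1)).comp ((W n a (b + 1)).subtype.comp ((FW n a b).comp s)), ?_, ?_⟩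
  · rw [← LinearMap.ker_eq_bot, LinearMap.ker_eq_bot']
    intro y hy
    have h1 : ((FW n a b (s y) : W n a (b + 1)) : Pr n → ℂ) = 0 :=
      qm_inj (by omega) (FW n a b (s y)).2 hy
    have h2 : FW n a b (s y) = 0 := Subtype.ext h1
    have h3 : s y = 0 := by
      apply FW_injective hab
      rw [h2, map_zero]
    have h4 := LinearMap.congr_fun hps y
    rw [LinearMap.comp_apply, h3, map_zero] at h4
    exact h4.symm
  · intro g
    refine LinearMap.ext fun y => ?_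
    change qm n a (b + 1) (FW n a b (s (R g y))).1 =
      TensorProduct.map (ρ a g) (ρ (b + 1) g) (qm n a (b + 1) (FW n a b (s y)).1)
    rw [hρ.qm]
    have h1 : s (R g y) = actW n (a + 1) b g (s y) := LinearMap.congr_fun (hsR g) y
    rw [h1, FW_actW]
    rfl

end Pool.Agent.Helper30.PML
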