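import Mathlib

set_option autoImplicit false

/-! # Functions harmonic in their free coordinates -/

namespace Pool.Agent.Helper30.PML

open Finset Function

lemma exists_perm_extend {α ι : Type*} [Fintype α] (f h : ι → α) (hf : Injective f)
    (hh : Injective h) : ∃ π : Equiv.Perm α, ∀ k, π (f k) = h k := by
  classical
  let e : {x // x ∈ Set.range f} ≃ {x // x ∈ Set.range h} :=
    (Equiv.ofInjective f hf).symm.trans (Equiv.ofInjective h hh)
  refine ⟨e.extendSubtype, fun k => ?_⟩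
  rw [Equiv.extendSubtype_apply_of_mem e (f k) ⟨k, rfl⟩]
  have h1 : (⟨f k, ⟨k, rfl⟩⟩ : Set.range f) = Equiv.ofInjective f hf k := rfl
  change ((Equiv.ofInjective h hh) ((Equiv.ofInjective f hf).symm ⟨f k, ⟨k, rfl⟩⟩) : α) = h k
  rw [h1, Equiv.symm_apply_apply]
  rfl

variable {I : Type*} [Fintype I] [DecidableEq I] {n : ℕ}

/-- the positions whose value is taken only once -/
def free (ρ : I → Fin n) : Finset I := univ.filter (fun k => ∀ l, l ≠ k → ρ l ≠ ρ k)

lemma mem_free {ρ : I → Fin n} {k : I} : k ∈ free ρ ↔ ∀ l, l ≠ k → ρ l ≠ ρ k := by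
  simp [free]

/-- replace the values at the positions in `X` -/
def repl (X : Finset I) (ρ ρ' : I → Fin n) : I → Fin n := fun k => if k ∈ X then ρ' k else ρ k

/-- the values at the other positions -/
def off (ρ : I → Fin n) (k : I) : Finset (Fin n) := (univ.erase k).image ρ

lemma mem_off {ρ : I → Fin n} {k : I} {t : Fin n} : t ∈ off ρ k ↔ ∃ l, l ≠ k ∧ ρ l = t := by
  simp [off]

/-- `ρ'` is injective and its values are not values of `ρ` -/
def Ptn (ρ ρ' : I → Fin n) : Prop := Injective ρ' ∧ ∀ k l, ρ' k ≠ ρ l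

lemma sum_zero_of_coord (k : I) (Q : (I → Fin n) → Prop) [DecidablePred Q]
    (g : (I → Fin n) → ℂ)
    (hQ : ∀ v, Q v → ∀ t, Q (update v k t) ↔ t ∉ off v k)
    (hg : ∀ v, Q v → ∑ t ∈ (off v k)ᶜ, g (update v k t) = 0) :
    ∑ v ∈ univ.filter Q, g v = 0 := by
  rw [sum_filter]
  set h : (I → Fin n) → ℂ := fun v => if Q v then g v else 0 with hh
  have hinner : ∀ v, ∑ t, h (update v k t) = 0 := by
    intro v
    by_cases hex : ∃ t₀, Q (update v k t₀)
    · obtain ⟨t₀, ht₀⟩ := hex
      have h1 : ∀ t, h (update v k t) = if t ∈ (off (update v k t₀) k)ᶜ then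
          g (update (update v k t₀) k t) else 0 := by
        intro t
        have h2 : update v k t = update (update v k t₀) k t := by rw [update_idem]
        rw [hh]
        simp only
        rw [h2]
        by_cases h3 : t ∈ off (update v k t₀) k
        · rw [if_neg, if_neg]
          · rw [mem_compl]
            exact fun h => h h3
          · rw [hQ _ ht₀]
            exact fun h => h h3
        · rw [if_pos, if_pos]
          · exact mem_compl.2 h3
          · exact (hQ _ ht₀ t).2 h3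
      simp_rw [h1]
      rw [sum_ite_mem, univ_inter]
      exact hg _ ht₀
    · push Not at hex
      exact sum_eq_zero fun t _ => if_neg (hex t)
  have hdouble : ∑ v, ∑ t, h (update v k t) = (n : ℂ) * ∑ v, h v := by
    let Φ : (I → Fin n) × Fin n → (I → Fin n) × Fin n := fun x => (update x.1 k x.2, x.1 k)
    have hΦ : Involutive Φ := by
      rintro ⟨v, t⟩
      simp [Φ]
    have h1 : ∑ x : (I → Fin n) × Fin n, h (update x.1 k x.2) =
        ∑ x : (I → Fin n) × Fin n, h x.1 := by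
      refine Fintype.sum_equiv hΦ.toPerm _ _ fun x => rfl
    rw [Fintype.sum_prod_type, Fintype.sum_prod_type] at h1
    rw [h1]
    simp [mul_sum]
  simp_rw [hinner] at hdouble
  rw [sum_const_zero] at hdouble
  rcases mul_eq_zero.1 hdouble.symm with h1 | h1
  · have hn : n = 0 := by exact_mod_cast h1
    subst hn
    refine sum_eq_zero fun v _ => ?_
    exact (v k).elim0
  · exact h1

/-- the permutations of the positions which fix the positions outside of `X` -/
def symOn (X : Finset I) : Subgroup (Equiv.Perm I) where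
  carrier := {σ | ∀ k, k ∉ X → σ k = k}
  mul_mem' := by
    intro σ τ hσ hτ k hk
    rw [Equiv.Perm.mul_apply, hτ k hk, hσ k hk]
  one_mem' := fun _ _ => rfl
  inv_mem' := by
    intro σ hσ k hk
    rw [Equiv.Perm.inv_eq_iff_eq]
    exact (hσ k hk).symm

lemma mem_symOn {X : Finset I} {σ : Equiv.Perm I} : σ ∈ symOn X ↔ ∀ k, k ∉ X → σ k = k := Iff.rfl

lemma symOn_mem {X : Finset I} {σ : Equiv.Perm I} (h : σ ∈ symOn X) {k : I} (hk : k ∈ X) :
    σ k ∈ X := by
  by_contra hcon
  have h1 := mem_symOn.1 h _ hcon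
  have h2 := σ.injective h1
  exact hcon (by rw [h2]; exact hk)

open Classical in
/-- the alternate values -/
noncomputable def VX (X : Finset I) (ρ : I → Fin n) : Finset (I → Fin n) :=
  univ.filter (fun v => (∀ k, k ∉ X → v k = ρ k) ∧ (∀ k ∈ X, ∀ l, l ≠ k → v l ≠ v k) ∧
    ∀ k ∈ X, v k ∉ X.image ρ)

open Classical in
/-- The key identity. -/
lemma sum_VX {Fr : Finset I} {g : (I → Fin n) → ℂ}
    (h1 : ∀ ρ, free ρ = Fr → ∀ k ∈ Fr, ∑ t ∈ (off ρ k)ᶜ, g (update ρ k t) = 0)
    {ρ : I → Fin n} (hρ : free ρ = Fr) {X : Finset I} (hX : X ⊆ Fr) :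
    ∑ v ∈ VX X ρ, g v = (-1) ^ X.card * ∑ σ : symOn X, g (ρ ∘ σ.1) := by
  -- the sets with prescribed positions in the image
  let Q : Finset I → (I → Fin n) → Prop := fun P v => (∀ k, k ∉ X → v k = ρ k) ∧
    (∀ k ∈ X, ∀ l, l ≠ k → v l ≠ v k) ∧ ∀ j ∈ P, v j ∈ X.image ρ
  have hfree : ∀ P v, Q P v → free v = Fr := by
    intro P v hv
    ext k
    by_cases hk : k ∈ X
    · have h2 : k ∈ free v := mem_free.2 (hv.2.1 k hk)
      simp [h2, hX hk]
    · rw [← hρ, mem_free, mem_free]
      constructor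
      · intro h l hl
        by_cases hlX : l ∈ X
        · have : l ∈ free ρ := by rw [hρ]; exact hX hlX
          exact (mem_free.1 this k hl.symm).symm
        · have := h l hl
          rwa [hv.1 l hlX, hv.1 k hk] at this
      · intro h l hl
        by_cases hlX : l ∈ X
        · exact (hv.2.1 l hlX k hl.symm).symm
        · rw [hv.1 l hlX, hv.1 k hk]
          exact h l hl
  -- they contribute zero unless all positions are prescribed
  have hzero : ∀ P ⊆ X, P ≠ X → ∑ v ∈ univ.filter (Q P), g v = 0 := by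
    intro P hP hne
    obtain ⟨k, hk, hkP⟩ : ∃ k ∈ X, k ∉ P := by
      by_contra hcon
      push Not at hcon
      exact hne (subset_antisymm hP hcon)
    refine sum_zero_of_coord k (Q P) g ?_ fun v hv => h1 v (hfree P v hv) k (hX hk)
    intro v hv t
    constructor
    · intro ht hcon
      obtain ⟨l, hl, hlt⟩ := mem_off.1 hcon
      have := ht.2.1 k hk l hl
      rw [update_self, update_of_ne hl] at this
      exact this hlt
    · intro ht
      rw [mem_off] at ht
      push Not at ht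
      refine ⟨fun m hm => ?_, fun m hm l hl => ?_, fun j hj => ?_⟩
      · have : m ≠ k := by
          rintro rfl
          exact hm hk
        rw [update_of_ne this]
        exact hv.1 m hm
      · by_cases hmk : m = k
        · subst hmk
          rw [update_self, update_of_ne hl]
          exact ht l hl
        · by_cases hlk : l = k
          · subst hlk
            rw [update_self, update_of_ne hmk]
            exact (ht m hmk).symm
          · rw [update_of_ne hmk, update_of_ne hlk]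
            exact hv.2.1 m hm l hl
      · have : j ≠ k := by
          rintro rfl
          exact hkP hj
        rw [update_of_ne this]
        exact hv.2.2 j hj
  -- inclusion-exclusion
  have hie : ∑ v ∈ VX X ρ, g v =
      ∑ P ∈ X.powerset, (-1) ^ P.card * ∑ v ∈ univ.filter (Q P), g v := by
    have e1 : ∀ P ∈ X.powerset, (-1 : ℂ) ^ P.card * ∑ v ∈ univ.filter (Q P), g v =
        ∑ v ∈ univ.filter (Q ∅), if ∀ j ∈ P, v j ∈ X.image ρ then (-1) ^ P.card * g v else 0 := by
      intro P _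
      rw [← sum_filter, filter_filter, mul_sum]
      refine sum_congr ?_ fun _ _ => rfl
      ext v
      simp only [mem_filter, mem_univ, true_and, Q]
      simp only [notMem_empty, false_imp_iff, imp_true_iff, and_true]
      tauto
    rw [sum_congr rfl e1, sum_comm]
    have e2 : VX X ρ = (univ.filter (Q ∅)).filter (fun v => ∀ k ∈ X, v k ∉ X.image ρ) := by
      ext v
      simp only [VX, mem_filter, mem_univ, true_and, Q]
      simp only [notMem_empty, false_imp_iff, imp_true_iff, and_true]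
      tauto
    rw [e2, sum_filter]
    refine sum_congr rfl fun v _ => ?_
    rw [← sum_filter]
    have e3 : X.powerset.filter (fun P => ∀ j ∈ P, v j ∈ X.image ρ) =
        (X.filter (fun j => v j ∈ X.image ρ)).powerset := by
      ext P
      simp only [mem_filter, mem_powerset, subset_iff]
      constructor
      · rintro ⟨h2, h3⟩ j hj
        exact ⟨h2 hj, h3 j hj⟩
      · intro h2
        exact ⟨fun j hj => (h2 hj).1, fun j hj => (h2 hj).2⟩
    rw [e3, ← sum_mul]
    have e4 : (∑ P ∈ (X.filter (fun j => v j ∈ X.image ρ)).powerset, (-1 : ℂ) ^ P.card) =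
        if X.filter (fun j => v j ∈ X.image ρ) = ∅ then 1 else 0 := by
      have := sum_powerset_neg_one_pow_card (x := X.filter (fun j => v j ∈ X.image ρ))
      have h2 := congrArg (Int.cast : ℤ → ℂ) this
      push_cast at h2
      exact h2
    rw [e4]
    have e5 : X.filter (fun j => v j ∈ X.image ρ) = ∅ ↔ ∀ k ∈ X, v k ∉ X.image ρ := by
      rw [filter_eq_empty_iff]
    by_cases h2 : ∀ k ∈ X, v k ∉ X.image ρ
    · rw [if_pos h2, if_pos (e5.2 h2), one_mul]
    · rw [if_neg h2, if_neg (fun h => h2 (e5.1 h)), zero_mul]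
  rw [hie, sum_eq_single_of_mem X (mem_powerset_self X)]
  swap
  · intro P hP hne
    rw [hzero P (mem_powerset.1 hP) hne, mul_zero]
  congr 1
  -- all positions prescribed: permutations
  symm
  refine sum_bij (fun σ _ => ρ ∘ σ.1) ?_ ?_ ?_ ?_
  · intro σ _
    simp only [mem_filter, mem_univ, true_and, Q]
    refine ⟨fun k hk => ?_, fun k hk l hl => ?_, fun j hj => ?_⟩
    · rw [comp_apply, mem_symOn.1 σ.2 k hk]
    · rw [comp_apply, comp_apply]
      have h2 : σ.1 k ∈ free ρ := by rw [hρ]; exact hX (symOn_mem σ.2 hk)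
      exact mem_free.1 h2 _ (fun h => hl (σ.1.injective h))
    · rw [comp_apply]
      exact mem_image_of_mem _ (symOn_mem σ.2 hj)
  · intro σ _ τ _ h
    ext k
    by_cases hk : k ∈ X
    · by_contra hne
      have h2 : τ.1 k ∈ free ρ := by rw [hρ]; exact hX (symOn_mem τ.2 hk)
      exact mem_free.1 h2 _ hne (congrFun h k)
    · rw [mem_symOn.1 σ.2 k hk, mem_symOn.1 τ.2 k hk]
  · intro v hv
    simp only [mem_filter, mem_univ, true_and, Q] at hv
    obtain ⟨hv1, hv2, hv3⟩ := hv
    have h2 : ∀ k, ∃ m, (k ∈ X → m ∈ X ∧ ρ m = v k) ∧ (k ∉ X → m = k) := by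
      intro k
      by_cases hk : k ∈ X
      · obtain ⟨m, hm, hmk⟩ := mem_image.1 (hv3 k hk)
        exact ⟨m, fun _ => ⟨hm, hmk⟩, fun h => absurd hk h⟩
      · exact ⟨k, fun h => absurd h hk, fun _ => rfl⟩
    choose τ hτ1 hτ2 using h2
    have hτi : Injective τ := by
      intro k l hkl
      by_cases hk : k ∈ X
      · by_cases hl : l ∈ X
        · by_contra hne
          apply hv2 k hk l (Ne.symm hne)
          rw [← (hτ1 k hk).2, ← (hτ1 l hl).2, hkl]
        · exfalso
          apply hl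
          rw [← hτ2 l hl, ← hkl]
          exact (hτ1 k hk).1
      · by_cases hl : l ∈ X
        · exfalso
          apply hk
          rw [← hτ2 k hk, hkl]
          exact (hτ1 l hl).1
        · rw [← hτ2 k hk, hkl, hτ2 l hl]
    refine ⟨⟨Equiv.ofBijective τ (Finite.injective_iff_bijective.1 hτi), fun k hk => hτ2 k hk⟩,
      mem_univ _, ?_⟩
    funext k
    change ρ (τ k) = v k
    by_cases hk : k ∈ X
    · exact (hτ1 k hk).2
    · rw [hτ2 k hk, hv1 k hk]
  · intro σ _
    rfl

open Classical in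
/-- the permutations of the values fixing the values of `ρ` -/
noncomputable def fixV (ρ : I → Fin n) : Finset (Equiv.Perm (Fin n)) :=
  univ.filter (fun π => ∀ k, π (ρ k) = ρ k)

open Classical in
/-- the weight of the set `X` -/
noncomputable def wt (ρ ρ' : I → Fin n) (X : Finset I) : ℕ :=
  ((fixV ρ).filter (fun π => ∀ k ∈ X, π (ρ' k) = ρ' k)).card

lemma wt_pos (ρ ρ' : I → Fin n) (X : Finset I) : 0 < wt ρ ρ' X :=
  card_pos.2 ⟨1, by simp [fixV]⟩

/-- averaging over the partners -/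
lemma sum_fixV {ρ ρ' : I → Fin n} (hp : Ptn ρ ρ') (X : Finset I) (g : (I → Fin n) → ℂ) :
    ∑ π ∈ fixV ρ, g (repl X ρ (π ∘ ρ')) = (wt ρ ρ' X : ℂ) * ∑ v ∈ VX X ρ, g v := by
  classical
  have hmaps : ∀ π ∈ fixV ρ, repl X ρ (π ∘ ρ') ∈ VX X ρ := by
    intro π hπ
    simp only [fixV, mem_filter, mem_univ, true_and] at hπ
    simp only [VX, mem_filter, mem_univ, true_and]
    refine ⟨fun k hk => ?_, fun k hk l hl => ?_, fun k hk hcon => ?_⟩
    · simp [repl, hk]
    · by_cases hlX : l ∈ X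
      · simp only [repl, hk, hlX, if_true, comp_apply]
        exact fun h => hl (hp.1 (π.injective h))
      · simp only [repl, hk, hlX, if_true, if_false, comp_apply]
        intro h
        rw [← hπ l] at h
        exact hp.2 k l (π.injective h).symm
    · simp only [repl, hk, if_true, comp_apply] at hcon
      obtain ⟨j, _, hj⟩ := mem_image.1 hcon
      rw [← hπ j] at hj
      exact hp.2 k j (π.injective hj).symm
  rw [← sum_fiberwise_of_maps_to hmaps, mul_sum]
  refine sum_congr rfl fun v hv => ?_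
  have h1 : ∑ π ∈ (fixV ρ).filter (fun π : Equiv.Perm (Fin n) => repl X ρ (⇑π ∘ ρ') = v),
      g (repl X ρ (⇑π ∘ ρ')) =
      (((fixV ρ).filter (fun π : Equiv.Perm (Fin n) => repl X ρ (⇑π ∘ ρ') = v)).card : ℂ) *
        g v := by
    rw [← nsmul_eq_mul, ← sum_const]
    refine sum_congr rfl fun π hπ => ?_
    rw [(mem_filter.1 hπ).2]
  rw [h1]
  congr 2
  simp only [VX, mem_filter, mem_univ, true_and] at hv
  obtain ⟨hv1, hv2, hv3⟩ := hv
  -- a permutation realising `v`
  have hvρ : ∀ k ∈ X, ∀ l, v k ≠ ρ l := by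
    intro k hk l hl
    by_cases hlX : l ∈ X
    · exact hv3 k hk (hl ▸ mem_image_of_mem _ hlX)
    · rw [← hv1 l hlX] at hl
      have : l ≠ k := by
        rintro rfl
        exact hlX hk
      exact hv2 k hk l this hl.symm
  obtain ⟨π₀, hπ₀⟩ := exists_perm_extend
    (Sum.elim (fun x : Set.range ρ => (x : Fin n)) (fun k : {k // k ∈ X} => ρ' k))
    (Sum.elim (fun x : Set.range ρ => (x : Fin n)) (fun k : {k // k ∈ X} => v k)) (by
      rintro (x | k) (y | l) h
      · simp only [Sum.elim_inl] at h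
        rw [Subtype.ext h]
      · simp only [Sum.elim_inl, Sum.elim_inr] at h
        obtain ⟨x, m, rfl⟩ := x
        exact absurd h.symm (hp.2 _ _)
      · simp only [Sum.elim_inl, Sum.elim_inr] at h
        obtain ⟨y, m, rfl⟩ := y
        exact absurd h (hp.2 _ _)
      · simp only [Sum.elim_inr] at h
        rw [Subtype.ext (hp.1 h)]) (by
      rintro (x | k) (y | l) h
      · simp only [Sum.elim_inl] at h
        rw [Subtype.ext h]
      · simp only [Sum.elim_inl, Sum.elim_inr] at h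
        obtain ⟨x, m, rfl⟩ := x
        exact absurd h.symm (hvρ _ l.2 _)
      · simp only [Sum.elim_inl, Sum.elim_inr] at h
        obtain ⟨y, m, rfl⟩ := y
        exact absurd h (hvρ _ k.2 _)
      · simp only [Sum.elim_inr] at h
        by_contra hne
        refine hv2 l l.2 k (fun h' => hne ?_) h
        rw [Subtype.ext h'])
  have hπ1 : ∀ k, π₀ (ρ k) = ρ k := fun k => hπ₀ (Sum.inl ⟨ρ k, k, rfl⟩)
  have hπ2 : ∀ k ∈ X, π₀ (ρ' k) = v k := fun k hk => hπ₀ (Sum.inr ⟨k, hk⟩)
  have hiff : ∀ π : Equiv.Perm (Fin n), repl X ρ (π ∘ ρ') = v ↔ ∀ k ∈ X, π (ρ' k) = v k := by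
    intro π
    constructor
    · intro h k hk
      rw [← h]
      simp [repl, hk]
    · intro h
      funext k
      by_cases hk : k ∈ X
      · simp [repl, hk, h k hk]
      · simp [repl, hk, hv1 k hk]
  unfold wt
  refine card_bij (fun π _ => π₀⁻¹ * π) ?_ ?_ ?_
  · intro π hπ
    simp only [fixV, mem_filter, mem_univ, true_and] at hπ ⊢
    rw [hiff] at hπ
    refine ⟨fun k => ?_, fun k hk => ?_⟩
    · rw [Equiv.Perm.mul_apply, hπ.1 k, Equiv.Perm.inv_eq_iff_eq, hπ1]
    · rw [Equiv.Perm.mul_apply, hπ.2 k hk, Equiv.Perm.inv_eq_iff_eq, hπ2 k hk]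
  · intro π _ π' _ h
    exact mul_left_cancel h
  · intro π hπ
    simp only [fixV, mem_filter, mem_univ, true_and] at hπ
    refine ⟨π₀ * π, ?_, by simp⟩
    simp only [fixV, mem_filter, mem_univ, true_and]
    rw [hiff]
    refine ⟨fun k => ?_, fun k hk => ?_⟩
    · rw [Equiv.Perm.mul_apply, hπ.1 k, hπ1]
    · rw [Equiv.Perm.mul_apply, hπ.2 k hk, hπ2 k hk]

/-- positivity of the average over a subgroup -/
lemma pos_sub {G : Type*} [Group G] [Fintype G] (H : Subgroup G) [Fintype H] (f : G → ℂ) :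
    0 ≤ (∑ σ, (starRingEnd ℂ) (f σ) * ∑ τ : H, f (σ * τ)).re := by
  have h1 : (Fintype.card H : ℂ) * ∑ σ, (starRingEnd ℂ) (f σ) * ∑ τ : H, f (σ * τ) =
      ∑ σ, (starRingEnd ℂ) (∑ τ : H, f (σ * τ)) * ∑ τ : H, f (σ * τ) := by
    have h2 : ∀ σ, (starRingEnd ℂ) (∑ τ : H, f (σ * τ)) * ∑ τ : H, f (σ * τ) =
        ∑ κ : H, (starRingEnd ℂ) (f (σ * κ)) * ∑ τ : H, f (σ * τ) := by
      intro σ
      rw [map_sum, sum_mul]
    simp_rw [h2]
    rw [sum_comm]
    have h3 : ∀ κ : H, ∑ σ, (starRingEnd ℂ) (f (σ * κ)) * ∑ τ : H, f (σ * τ) =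
        ∑ σ, (starRingEnd ℂ) (f σ) * ∑ τ : H, f (σ * τ) := by
      intro κ
      rw [← Equiv.sum_comp (Equiv.mulRight ((κ : G)⁻¹))]
      refine sum_congr rfl fun σ _ => ?_
      simp only [Equiv.coe_mulRight, inv_mul_cancel_right]
      congr 1
      rw [← Equiv.sum_comp (Equiv.mulLeft κ)]
      refine sum_congr rfl fun τ _ => ?_
      simp [mul_assoc]
    simp_rw [h3]
    rw [sum_const, card_univ, nsmul_eq_mul]
  have h4 : (∑ σ, (starRingEnd ℂ) (∑ τ : H, f (σ * τ)) * ∑ τ : H, f (σ * τ)).re =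
      ∑ σ, Complex.normSq (∑ τ : H, f (σ * τ)) := by
    rw [Complex.re_sum]
    refine sum_congr rfl fun σ _ => ?_
    rw [mul_comm, Complex.mul_conj, Complex.ofReal_re]
  have h5 : (Fintype.card H : ℝ) * (∑ σ, (starRingEnd ℂ) (f σ) * ∑ τ : H, f (σ * τ)).re =
      ∑ σ, Complex.normSq (∑ τ : H, f (σ * τ)) := by
    rw [← h4, ← h1]
    simp
  have h6 : 0 < (Fintype.card H : ℝ) := by exact_mod_cast Fintype.card_pos
  have h7 : 0 ≤ ∑ σ, Complex.normSq (∑ τ : H, f (σ * τ)) :=
    sum_nonneg fun _ _ => Complex.normSq_nonneg _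
  rw [← h5] at h7
  exact nonneg_of_mul_nonneg_right h7 h6

lemma exists_ptn (hn : 2 * Fintype.card I ≤ n) (ρ : I → Fin n) : ∃ ρ' : I → Fin n, Ptn ρ ρ' := by
  classical
  have h1 : Fintype.card I ≤ Fintype.card {x : Fin n // x ∉ univ.image ρ} := by
    rw [Fintype.card_of_subtype (univ.image ρ)ᶜ (fun x => mem_compl), card_compl,
      Fintype.card_fin]
    have h2 : (univ.image ρ).card ≤ Fintype.card I := card_image_le
    omega
  obtain ⟨e⟩ := Function.Embedding.nonempty_of_card_le h1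
  refine ⟨fun k => (e k : Fin n), ⟨fun k l h => e.injective (Subtype.ext h), fun k l h => ?_⟩⟩
  have h' : (e k : Fin n) = ρ l := h
  exact (e k).2 (by rw [h']; exact mem_image_of_mem _ (mem_univ l))

/-- A function harmonic in its free coordinates all of whose alternating sums vanish is zero. -/
theorem E_one {Fr : Finset I} {g : (I → Fin n) → ℂ} (hn : 2 * Fintype.card I ≤ n)
    (h1 : ∀ ρ, free ρ = Fr → ∀ k ∈ Fr, ∑ t ∈ (off ρ k)ᶜ, g (update ρ k t) = 0)
    (h2 : ∀ ρ ρ', free ρ = Fr → Ptn ρ ρ' →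
      ∑ X ∈ Fr.powerset, (-1) ^ X.card * g (repl X ρ ρ') = 0)
    {ρ : I → Fin n} (hρ : free ρ = Fr) : g ρ = 0 := by
  classical
  obtain ⟨ρ', hp⟩ := exists_ptn hn ρ
  -- the orbit of `ρ`
  have hfree : ∀ σ ∈ symOn Fr, free (ρ ∘ σ) = Fr := by
    intro σ hσ
    ext k
    rw [mem_free]
    have h3 : (∀ l, l ≠ k → (ρ ∘ σ) l ≠ (ρ ∘ σ) k) ↔ σ k ∈ free ρ := by
      rw [mem_free]
      constructor
      · intro h l hl
        have := h (σ⁻¹ l) (fun h' => hl (by rw [← h']; simp))
        simpa using this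
      · intro h l hl
        exact h (σ l) (fun h' => hl (σ.injective h'))
    rw [h3, hρ]
    constructor
    · intro h
      by_contra hk
      rw [mem_symOn.1 hσ k hk] at h
      exact hk h
    · exact fun h => symOn_mem hσ h
  have hptn : ∀ σ : Equiv.Perm I, Ptn (ρ ∘ σ) ρ' := fun σ => ⟨hp.1, fun k l => hp.2 k (σ l)⟩
  have hwt : ∀ (σ : Equiv.Perm I) X, wt (ρ ∘ σ) ρ' X = wt ρ ρ' X := by
    intro σ X
    unfold wt
    congr 2
    unfold fixV
    refine filter_congr fun π _ => ?_
    constructor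
    · intro h k
      have := h (σ⁻¹ k)
      simpa using this
    · intro h k
      exact h (σ k)
  have hid : ∀ σ ∈ symOn Fr, ∑ X ∈ Fr.powerset, (wt ρ ρ' X : ℂ) *
      ∑ τ : symOn X, g (ρ ∘ (σ * τ.1 : Equiv.Perm I)) = 0 := by
    intro σ hσ
    have h3 : ∑ π ∈ fixV (ρ ∘ σ), ∑ X ∈ Fr.powerset, (-1) ^ X.card *
        g (repl X (ρ ∘ σ) (π ∘ ρ')) = 0 := by
      refine sum_eq_zero fun π hπ => h2 _ _ (hfree σ hσ) ?_
      simp only [fixV, mem_filter, mem_univ, true_and] at hπ
      refine ⟨π.injective.comp hp.1, fun k l h => ?_⟩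
      rw [← hπ l] at h
      exact (hptn σ).2 k l (π.injective h)
    rw [sum_comm] at h3
    rw [← h3]
    refine sum_congr rfl fun X hX => ?_
    rw [← mul_sum, sum_fixV (hptn σ), sum_VX h1 (hfree σ hσ) (mem_powerset.1 hX), hwt]
    have h4 : ((-1 : ℂ) ^ X.card) * (-1) ^ X.card = 1 := by
      rw [← mul_pow]
      norm_num
    have h5 : ∑ τ : symOn X, g (ρ ∘ (σ * τ.1 : Equiv.Perm I)) =
        ∑ τ : symOn X, g ((ρ ∘ σ) ∘ τ.1) := rfl
    rw [h5]
    linear_combination (-(wt ρ ρ' X : ℂ) * ∑ τ : symOn X, g ((ρ ∘ σ) ∘ τ.1)) * h4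
  set G : Equiv.Perm I → ℂ := fun σ => if σ ∈ symOn Fr then g (ρ ∘ σ) else 0 with hG
  have hidG : ∀ σ, ∑ X ∈ Fr.powerset, (wt ρ ρ' X : ℂ) * ∑ τ : symOn X, G (σ * τ.1) = 0 := by
    intro σ
    have hle : ∀ X ∈ Fr.powerset, ∀ τ : symOn X, τ.1 ∈ symOn Fr := by
      intro X hX τ
      rw [mem_symOn]
      intro k hk
      exact mem_symOn.1 τ.2 k fun h => hk (mem_powerset.1 hX h)
    by_cases hσ : σ ∈ symOn Fr
    · rw [← hid σ hσ]
      refine sum_congr rfl fun X hX => ?_
      congr 1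
      refine sum_congr rfl fun τ _ => ?_
      rw [hG]
      simp only
      rw [if_pos (mul_mem hσ (hle X hX τ))]
    · refine sum_eq_zero fun X hX => ?_
      rw [sum_eq_zero, mul_zero]
      intro τ _
      rw [hG]
      simp only
      rw [if_neg]
      intro h
      exact hσ (((symOn Fr).mul_mem_cancel_right (hle X hX τ)).1 h)
  have htot : ∑ X ∈ Fr.powerset, (wt ρ ρ' X : ℝ) *
      (∑ σ, (starRingEnd ℂ) (G σ) * ∑ τ : symOn X, G (σ * τ.1)).re = 0 := by
    have h3 : ∑ σ, (starRingEnd ℂ) (G σ) *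
        ∑ X ∈ Fr.powerset, (wt ρ ρ' X : ℂ) * ∑ τ : symOn X, G (σ * τ.1) = 0 :=
      sum_eq_zero fun σ _ => by rw [hidG, mul_zero]
    have h4 : ∑ σ, (starRingEnd ℂ) (G σ) *
        ∑ X ∈ Fr.powerset, (wt ρ ρ' X : ℂ) * ∑ τ : symOn X, G (σ * τ.1) =
        ∑ X ∈ Fr.powerset, (wt ρ ρ' X : ℂ) *
          ∑ σ, (starRingEnd ℂ) (G σ) * ∑ τ : symOn X, G (σ * τ.1) := by
      simp_rw [mul_sum (s := Fr.powerset)]
      rw [sum_comm]
      refine sum_congr rfl fun X _ => ?_
      rw [mul_sum]
      refine sum_congr rfl fun σ _ => ?_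
      ring
    rw [h4] at h3
    have h5 := congrArg Complex.re h3
    rw [Complex.re_sum, Complex.zero_re] at h5
    rw [← h5]
    refine sum_congr rfl fun X _ => ?_
    rw [← Complex.ofReal_natCast, Complex.re_ofReal_mul]
  have hnn : ∀ X ∈ Fr.powerset, 0 ≤ (wt ρ ρ' X : ℝ) *
      (∑ σ, (starRingEnd ℂ) (G σ) * ∑ τ : symOn X, G (σ * τ.1)).re :=
    fun X _ => mul_nonneg (Nat.cast_nonneg _) (pos_sub (symOn X) G)
  have h0 := (sum_eq_zero_iff_of_nonneg hnn).1 htot ∅ (empty_mem_powerset _)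
  have h6 : ∀ σ, ∑ τ : symOn (∅ : Finset I), G (σ * τ.1) = G σ := by
    intro σ
    have hu : ∀ τ : symOn (∅ : Finset I), τ = 1 := by
      intro τ
      exact Subtype.ext (Equiv.ext fun k => mem_symOn.1 τ.2 k (notMem_empty k))
    rw [Fintype.sum_eq_single 1 (fun τ hτ => absurd (hu τ) hτ)]
    simp
  simp_rw [h6] at h0
  have h7 : (∑ σ, (starRingEnd ℂ) (G σ) * G σ).re = ∑ σ, Complex.normSq (G σ) := by
    rw [Complex.re_sum]
    refine sum_congr rfl fun σ _ => ?_
    rw [mul_comm, Complex.mul_conj, Complex.ofReal_re]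
  rw [h7] at h0
  rcases mul_eq_zero.1 h0 with h8 | h8
  · exfalso
    have := wt_pos ρ ρ' ∅
    have h9 : wt ρ ρ' ∅ = 0 := by exact_mod_cast h8
    omega
  · have h9 := (sum_eq_zero_iff_of_nonneg fun σ _ => Complex.normSq_nonneg (G σ)).1 h8 1
      (mem_univ _)
    rw [Complex.normSq_eq_zero, hG] at h9
    simp only [one_mem, if_true] at h9
    exact h9

end Pool.Agent.Helper30.PML
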