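import Pool.Agent.Helper30.PML.Ring
import Pool.Agent.Helper30.PML.Harm

set_option autoImplicit false

/-! # Alternating sums as functionals on the graded pieces -/

namespace Pool.Agent.Helper30.PML

open Finset MvPolynomial TensorProduct Function

variable {n : ℕ}

/-- all monomials have degree less than `d` -/
def Low (d : ℕ) (r : MvPolynomial (Cell n) ℂ) : Prop := ∀ k : Cell n →₀ ℕ, d ≤ k.degree →
  coeff k r = 0

lemma hc_monomial_mul (m : Cell n →₀ ℕ) (c : ℂ) (x : MvPolynomial (Cell n) ℂ) (d : ℕ) :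
    homogeneousComponent d (monomial m c * x) =
      if m.degree ≤ d then monomial m c * homogeneousComponent (d - m.degree) x else 0 := by
  ext k
  rw [coeff_homogeneousComponent, coeff_monomial_mul']
  by_cases hmk : m ≤ k
  · have h1 : k.degree = m.degree + (k - m).degree := by
      conv_lhs => rw [← add_tsub_cancel_of_le hmk]
      rw [map_add]
    rw [if_pos hmk]
    by_cases hd : m.degree ≤ d
    · rw [if_pos hd, coeff_monomial_mul', if_pos hmk, coeff_homogeneousComponent]
      by_cases hk : k.degree = d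
      · rw [if_pos hk, if_pos (by omega)]
      · rw [if_neg hk, if_neg (by omega), mul_zero]
    · rw [if_neg hd, coeff_zero, if_neg (by omega)]
  · rw [if_neg hmk, ite_self]
    by_cases hd : m.degree ≤ d
    · rw [if_pos hd, coeff_monomial_mul', if_neg hmk]
    · rw [if_neg hd, coeff_zero]

/-- On the locus the homogeneous components of the elements of `I_n` are of lower degree. -/
lemma J_low {f : MvPolynomial (Cell n) ℂ} (hf : f ∈ J n) : ∀ d, ∃ r, Low d r ∧
    ∀ w, eval (evalPt w) (homogeneousComponent d f) = eval (evalPt w) r := by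
  unfold J at hf
  refine Submodule.span_induction (p := fun f _ => ∀ d, ∃ r, Low d r ∧
    ∀ w, eval (evalPt w) (homogeneousComponent d f) = eval (evalPt w) r) ?_ ?_ ?_ ?_ hf
  · rintro g ⟨f, hf0, rfl⟩ d
    by_cases hd : d = f.totalDegree
    · refine ⟨homogeneousComponent f.totalDegree f - f, ?_, ?_⟩
      · intro k hk
        rw [coeff_sub, coeff_homogeneousComponent]
        split_ifs with h
        · rw [sub_self]
        · rw [zero_sub, neg_eq_zero]
          apply coeff_eq_zero_of_totalDegree_lt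
          have h1 : k.degree = ∑ i ∈ k.support, k i := rfl
          rw [← h1]
          omega
      · intro w
        rw [map_sub, hf0, sub_zero, homogeneousComponent_of_mem
          (homogeneousComponent_mem f.totalDegree f), if_pos hd]
    · refine ⟨0, fun k _ => coeff_zero k, fun w => ?_⟩
      rw [homogeneousComponent_of_mem (homogeneousComponent_mem f.totalDegree f), if_neg hd]
  · intro d
    exact ⟨0, fun k _ => coeff_zero k, fun w => by rw [map_zero]⟩
  · intro x y _ _ hx hy d
    obtain ⟨r, hr, hr'⟩ := hx d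
    obtain ⟨s, hs, hs'⟩ := hy d
    refine ⟨r + s, fun k hk => ?_, fun w => ?_⟩
    · rw [coeff_add, hr k hk, hs k hk, add_zero]
    · rw [map_add, map_add, map_add, hr', hs']
  · intro a x _ hx
    rw [smul_eq_mul]
    induction a using MvPolynomial.induction_on' with
    | monomial m c =>
      intro d
      rw [hc_monomial_mul]
      by_cases hd : m.degree ≤ d
      · rw [if_pos hd]
        obtain ⟨r, hr, hr'⟩ := hx (d - m.degree)
        refine ⟨monomial m c * r, fun k hk => ?_, fun w => ?_⟩
        · rw [coeff_monomial_mul']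
          split_ifs with h
          · rw [hr, mul_zero]
            have h1 : k.degree = m.degree + (k - m).degree := by
              conv_lhs => rw [← add_tsub_cancel_of_le h]
              rw [map_add]
            omega
          · rfl
        · rw [map_mul, map_mul, hr']
      · rw [if_neg hd]
        exact ⟨0, fun k _ => coeff_zero k, fun w => rfl⟩
    | add p q hp hq =>
      intro d
      obtain ⟨r, hr, hr'⟩ := hp d
      obtain ⟨s, hs, hs'⟩ := hq d
      refine ⟨r + s, fun k hk => ?_, fun w => ?_⟩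
      · rw [coeff_add, hr k hk, hs k hk, add_zero]
      · rw [add_mul, map_add, map_add, map_add, hr', hs']

/-- the placement with rows `r` and columns `s` -/
def plc {a : ℕ} (r s : Fin a → Fin n) : Finset (Cell n) := univ.image fun k => (r k, s k)

lemma mem_plc {a : ℕ} {r s : Fin a → Fin n} {x : Cell n} :
    x ∈ plc r s ↔ ∃ k, (r k, s k) = x := by
  simp [plc]

/-- exchanging the membership of `k` -/
def tog {ι : Type*} [DecidableEq ι] (k : ι) (X : Finset ι) : Finset ι := symmDiff X {k}

lemma mem_tog {ι : Type*} [DecidableEq ι] {k l : ι} {X : Finset ι} :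
    l ∈ tog k X ↔ (l ≠ k ∧ l ∈ X) ∨ (l = k ∧ k ∉ X) := by
  unfold tog
  rw [mem_symmDiff, mem_singleton]
  by_cases h : l = k
  · subst h
    simp
  · simp [h]

lemma tog_tog {ι : Type*} [DecidableEq ι] (k : ι) (X : Finset ι) : tog k (tog k X) = X := by
  unfold tog
  rw [symmDiff_assoc, symmDiff_self]
  simp

lemma neg_one_tog {ι : Type*} [DecidableEq ι] (k : ι) (X : Finset ι) :
    (-1 : ℂ) ^ (tog k X).card = - (-1) ^ X.card := by
  by_cases hk : k ∈ X
  · have : tog k X = X.erase k := by
      ext l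
      rw [mem_tog, mem_erase]
      simp [hk]
    rw [this]
    have h1 := card_erase_add_one hk
    rw [← h1, pow_succ]
    ring
  · have : tog k X = insert k X := by
      ext l
      rw [mem_tog, mem_insert]
      by_cases hl : l = k
      · simp [hl, hk]
      · simp [hl]
    rw [this, card_insert_of_notMem hk, pow_succ]
    ring

lemma neg_one_symmDiff {ι : Type*} [DecidableEq ι] (X Y : Finset ι) :
    (-1 : ℂ) ^ (symmDiff X Y).card = (-1) ^ X.card * (-1) ^ Y.card := by
  induction Y using Finset.induction_on generalizing X with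
  | empty =>
    rw [← Finset.bot_eq_empty, symmDiff_bot]
    simp
  | insert k Y hk ih =>
    have h1 : symmDiff X (insert k Y) = tog k (symmDiff X Y) := by
      ext l
      rw [mem_tog, mem_symmDiff, mem_symmDiff, mem_symmDiff, mem_insert]
      by_cases hl : l = k
      · subst hl
        simp only [hk, not_true, and_false, not_false_eq_true, and_true, false_or,
          ne_eq, true_and, false_and, or_false]
      · simp only [hl, false_or, ne_eq, not_false_eq_true, true_and, false_and, or_false]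
    rw [h1, neg_one_tog, ih, card_insert_of_notMem hk, pow_succ]
    ring

/-- alternating sums of functions not depending on `k` vanish -/
lemma alt_zero {ι : Type*} [Fintype ι] [DecidableEq ι] (k : ι) (φ : Finset ι → ℂ)
    (h : ∀ X, φ (tog k X) = φ X) : ∑ X, (-1) ^ X.card * φ X = 0 := by
  have h1 : ∑ X, (-1) ^ X.card * φ X = ∑ X, (-1) ^ (tog k X).card * φ (tog k X) := by
    symm
    exact Fintype.sum_equiv (Function.Involutive.toPerm (tog k) (tog_tog k)) _ _ fun X => rfl
  have h2 : ∑ X, (-1) ^ (tog k X).card * φ (tog k X) = - ∑ X, (-1) ^ X.card * φ X := by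
    rw [← sum_neg_distrib]
    exact sum_congr rfl fun X _ => by rw [neg_one_tog, h]; ring
  rw [h2] at h1
  exact self_eq_neg.1 h1

/-- a family of permutations with prescribed values -/
lemma exists_family {a : ℕ} {r r' s s' : Fin a → Fin n} (hr : Injective (Sum.elim r r'))
    (hs : Injective (Sum.elim s s')) : ∃ g : Finset (Fin a) → Equiv.Perm (Fin n),
      (∀ X k, g X (r k) = if k ∈ X then s' k else s k) ∧
      (∀ X k, g X (r' k) = if k ∈ X then s k else s' k) ∧
      ∀ X k i, i ≠ r k → i ≠ r' k → g (tog k X) i = g X i := by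
  classical
  obtain ⟨g₀, hg₀⟩ := exists_perm_extend _ _ hr hs
  let idx : Fin a ⊕ Fin a → Fin a := Sum.elim id id
  have hinv : ∀ X : Finset (Fin a), Function.Involutive
      (fun x : Fin a ⊕ Fin a => if idx x ∈ X then x.swap else x) := by
    intro X x
    rcases x with k | k
    · by_cases hk : k ∈ X
      · simp [idx, hk]
      · simp [idx, hk]
    · by_cases hk : k ∈ X
      · simp [idx, hk]
      · simp [idx, hk]
  let e : Fin a ⊕ Fin a ↪ Fin n := ⟨Sum.elim s s', hs⟩
  let τ : Finset (Fin a) → Equiv.Perm (Fin n) := fun X =>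
    ((hinv X).toPerm).viaFintypeEmbedding e
  have hτ : ∀ X x, τ X (Sum.elim s s' x) =
      Sum.elim s s' (if idx x ∈ X then x.swap else x) := fun X x =>
    Equiv.Perm.viaFintypeEmbedding_apply_image _ e x
  have hτ' : ∀ X i, i ∉ Set.range (Sum.elim s s') → τ X i = i := fun X i hi =>
    Equiv.Perm.viaFintypeEmbedding_apply_notMem_range _ e hi
  refine ⟨fun X => g₀.trans (τ X), fun X k => ?_, fun X k => ?_, fun X k i h1 h2 => ?_⟩
  · rw [Equiv.trans_apply]
    have : g₀ (r k) = Sum.elim s s' (Sum.inl k) := hg₀ (Sum.inl k)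
    rw [this, hτ]
    by_cases hk : k ∈ X
    · simp [idx, hk]
    · simp [idx, hk]
  · rw [Equiv.trans_apply]
    have : g₀ (r' k) = Sum.elim s s' (Sum.inr k) := hg₀ (Sum.inr k)
    rw [this, hτ]
    by_cases hk : k ∈ X
    · simp [idx, hk]
    · simp [idx, hk]
  · rw [Equiv.trans_apply, Equiv.trans_apply]
    by_cases hi : g₀ i ∈ Set.range (Sum.elim s s')
    · obtain ⟨y, hy⟩ := hi
      have hiy : i = Sum.elim r r' y := by
        apply g₀.injective
        rw [hg₀, hy]
      rw [← hy, hτ, hτ]
      have hidx : idx y ≠ k := by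
        rintro rfl
        rcases y with l | l
        · exact h1 hiy
        · exact h2 hiy
      have : idx y ∈ tog k X ↔ idx y ∈ X := by
        rw [mem_tog]
        simp [hidx]
      simp only [this]
    · rw [hτ' _ _ hi, hτ' _ _ hi]

lemma repl_inj {a : ℕ} {r r' : Fin a → Fin n} (hr : Injective (Sum.elim r r')) {X Y : Finset (Fin a)}
    {k l : Fin a} (h : repl X r r' k = repl Y r r' l) : k = l ∧ (k ∈ X ↔ l ∈ Y) := by
  unfold repl at h
  have hi : ∀ x y : Fin a ⊕ Fin a, Sum.elim r r' x = Sum.elim r r' y → x = y := fun x y h => hr h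
  split_ifs at h with h1 h2 h2
  · have := hi (Sum.inr k) (Sum.inr l) h
    simp only [Sum.inr.injEq] at this
    exact ⟨this, by simp [h1, h2]⟩
  · have := hi (Sum.inr k) (Sum.inl l) h
    simp at this
  · have := hi (Sum.inl k) (Sum.inr l) h
    simp at this
  · have := hi (Sum.inl k) (Sum.inl l) h
    simp only [Sum.inl.injEq] at this
    exact ⟨this, by simp [h1, h2]⟩

lemma evalPt_mon (w : Equiv.Perm (Fin n)) (A : Finset (Cell n)) :
    eval (evalPt w) (mon A) = if ∀ x ∈ A, w x.1 = x.2 then 1 else 0 := by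
  unfold mon
  rw [map_prod]
  simp only [eval_X, evalPt]
  rw [prod_ite_zero]
  simp

/-- the alternating sum of the evaluations at a monomial of full degree -/
lemma alt_mon {a : ℕ} {r r' s s' : Fin a → Fin n} (hr : Injective (Sum.elim r r'))
    {g : Finset (Fin a) → Equiv.Perm (Fin n)}
    (hg1 : ∀ X k, g X (r k) = if k ∈ X then s' k else s k)
    (hg2 : ∀ X k, g X (r' k) = if k ∈ X then s k else s' k)
    (hg3 : ∀ X k i, i ≠ r k → i ≠ r' k → g (tog k X) i = g X i)
    {A : Finset (Cell n)} (hA : A.card = a) :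
    ∑ X, (-1 : ℂ) ^ X.card * eval (evalPt (g X)) (mon A) =
      ∑ X, ∑ Y, (-1 : ℂ) ^ (X.card + Y.card) *
        if A = plc (repl X r r') (repl Y s s') then 1 else 0 := by
  simp_rw [evalPt_mon]
  by_cases hhit : ∀ k, r k ∈ rows A ∨ r' k ∈ rows A
  · -- choose the cells
    set ε : Finset (Fin a) := univ.filter (fun k => r k ∉ rows A) with hε
    have hρ : ∀ k, repl ε r r' k ∈ rows A := by
      intro k
      unfold repl
      split_ifs with h
      · rw [hε, mem_filter] at h
        exact (hhit k).resolve_left h.2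
      · rw [hε, mem_filter] at h
        simpa using h
    have hc' : ∀ k, ∃ c, (repl ε r r' k, c) ∈ A := fun k => mem_rows.1 (hρ k)
    choose c hc using hc'
    have hinj : Injective fun k => (repl ε r r' k, c k) := fun k l h =>
      (repl_inj hr (congrArg Prod.fst h)).1
    have hAplc : A = plc (repl ε r r') c := by
      symm
      refine eq_of_subset_of_card_le ?_ ?_
      · intro x hx
        obtain ⟨k, rfl⟩ := mem_plc.1 hx
        exact hc k
      · unfold plc
        rw [card_image_of_injective _ hinj, card_univ, Fintype.card_fin, hA]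
    have hL : ∀ X, (∀ x ∈ A, (g X) x.1 = x.2) ↔ repl (symmDiff ε X) s s' = c := by
      intro X
      have h1 : ∀ k, g X (repl ε r r' k) = repl (symmDiff ε X) s s' k := by
        intro k
        unfold repl
        by_cases h1 : k ∈ ε <;> by_cases h2 : k ∈ X <;> simp [h1, h2, hg1, hg2, mem_symmDiff]
      constructor
      · intro h
        funext k
        rw [← h1]
        exact h _ (hc k)
      · intro h x hx
        rw [hAplc] at hx
        obtain ⟨k, rfl⟩ := mem_plc.1 hx
        simp only
        rw [h1, h]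
    have hR : ∀ X Y, A = plc (repl X r r') (repl Y s s') ↔ X = ε ∧ repl Y s s' = c := by
      intro X Y
      constructor
      · intro h
        have h1 : ∀ k, k ∈ X ↔ k ∈ ε := by
          intro k
          have h2 : (repl X r r' k, repl Y s s' k) ∈ A := by
            rw [h]
            exact mem_plc.2 ⟨k, rfl⟩
          rw [hAplc] at h2
          obtain ⟨l, hl⟩ := mem_plc.1 h2
          obtain ⟨rfl, h4⟩ := repl_inj hr (congrArg Prod.fst hl)
          exact h4.symm
        refine ⟨Finset.ext h1, ?_⟩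
        funext k
        have h2 : (repl X r r' k, repl Y s s' k) ∈ A := by
          rw [h]
          exact mem_plc.2 ⟨k, rfl⟩
        rw [hAplc] at h2
        obtain ⟨l, hl⟩ := mem_plc.1 h2
        obtain ⟨rfl, h4⟩ := repl_inj hr (congrArg Prod.fst hl)
        exact (congrArg Prod.snd hl).symm
      · rintro ⟨rfl, h⟩
        rw [h]
        exact hAplc
    simp_rw [hL, hR]
    rw [Fintype.sum_eq_single (f := fun X => ∑ Y, (-1 : ℂ) ^ (X.card + Y.card) *
      if X = ε ∧ repl Y s s' = c then 1 else 0) ε]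
    · let Ψ : Equiv.Perm (Finset (Fin a)) := Function.Involutive.toPerm (fun X => symmDiff ε X)
        (fun X => by simp)
      rw [← Equiv.sum_comp Ψ]
      refine sum_congr rfl fun Y _ => ?_
      have h1 : Ψ Y = symmDiff ε Y := rfl
      have h2 : symmDiff ε (Ψ Y) = Y := by rw [h1]; simp
      rw [h2, h1, neg_one_symmDiff, pow_add]
      simp
    · intro X hX
      refine sum_eq_zero fun Y _ => ?_
      rw [if_neg (fun h => hX h.1), mul_zero]
  · push Not at hhit
    obtain ⟨k, hk1, hk2⟩ := hhit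
    rw [alt_zero k (fun X => if ∀ x ∈ A, (g X) x.1 = x.2 then 1 else 0)]
    · symm
      refine sum_eq_zero fun X _ => sum_eq_zero fun Y _ => ?_
      rw [if_neg, mul_zero]
      intro h
      have h2 : repl X r r' k ∈ rows A := by
        rw [mem_rows, h]
        exact ⟨_, mem_plc.2 ⟨k, rfl⟩⟩
      unfold repl at h2
      split_ifs at h2
      · exact hk2 h2
      · exact hk1 h2
    · intro X
      have h1 : (∀ x ∈ A, (g (tog k X)) x.1 = x.2) ↔ ∀ x ∈ A, (g X) x.1 = x.2 := by
        refine forall₂_congr fun x hx => ?_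
        rw [hg3]
        · rintro rfl'
          exact hk1 (rfl' ▸ mem_rows.2 ⟨x.2, hx⟩)
        · rintro rfl'
          exact hk2 (rfl' ▸ mem_rows.2 ⟨x.2, hx⟩)
      simp only [h1]

/-- the alternating sum of evaluations -/
noncomputable def Lam {a : ℕ} (g : Finset (Fin a) → Equiv.Perm (Fin n)) :
    MvPolynomial (Cell n) ℂ →ₗ[ℂ] ℂ where
  toFun f := ∑ X, (-1 : ℂ) ^ X.card * eval (evalPt (g X)) f
  map_add' := by
    intro f f'
    simp only [map_add, mul_add, sum_add_distrib]
  map_smul' := by
    intro c f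
    simp only [smul_eval, RingHom.id_apply, smul_eq_mul, mul_sum]
    exact sum_congr rfl fun X _ => by ring

lemma Lam_low {a : ℕ} {r r' : Fin a → Fin n} (hr : Injective (Sum.elim r r'))
    {g : Finset (Fin a) → Equiv.Perm (Fin n)}
    (hg3 : ∀ X k i, i ≠ r k → i ≠ r' k → g (tog k X) i = g X i)
    {f : MvPolynomial (Cell n) ℂ} (hf : Low a f) : Lam g f = 0 := by
  rw [f.as_sum, map_sum]
  refine sum_eq_zero fun m hm => ?_
  have hdeg : m.degree < a := by
    by_contra hcon
    push Not at hcon
    exact (mem_support_iff.1 hm) (hf m hcon)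
  obtain ⟨k, hk1, hk2⟩ : ∃ k, r k ∉ rows m.support ∧ r' k ∉ rows m.support := by
    by_contra hcon
    push Not at hcon
    have h1 : a ≤ (rows m.support).card := by
      have h2 : (univ : Finset (Fin a)).card ≤ (rows m.support).card := by
        refine card_le_card_of_injOn (fun k => if r k ∈ rows m.support then r k else r' k) ?_ ?_
        · intro k _
          simp only
          split_ifs with h
          · exact h
          · exact hcon k h
        · intro k _ l _ h
          simp only at h
          have hi : ∀ x y : Fin a ⊕ Fin a, Sum.elim r r' x = Sum.elim r r' y → x = y :=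
            fun x y h => hr h
          split_ifs at h
          · simpa using hi (Sum.inl k) (Sum.inl l) h
          · simpa using hi (Sum.inl k) (Sum.inr l) h
          · simpa using hi (Sum.inr k) (Sum.inl l) h
          · simpa using hi (Sum.inr k) (Sum.inr l) h
      simpa using h2
    have h3 : (rows m.support).card ≤ m.support.card := card_image_le
    have h4 : m.support.card ≤ m.degree := by
      have : m.degree = ∑ i ∈ m.support, m i := rfl
      rw [this, card_eq_sum_ones]
      refine sum_le_sum fun x hx => ?_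
      have := Finsupp.mem_support_iff.1 hx
      omega
    omega
  change ∑ X, (-1 : ℂ) ^ X.card * eval (evalPt (g X)) (monomial m (coeff m f)) = 0
  refine alt_zero k _ fun X => ?_
  rw [eval_monomial, eval_monomial]
  congr 1
  unfold Finsupp.prod
  refine prod_congr rfl fun x hx => ?_
  have h5 : g (tog k X) x.1 = g X x.1 := by
    refine hg3 X k x.1 ?_ ?_
    · intro h
      exact hk1 (h ▸ mem_rows.2 ⟨x.2, hx⟩)
    · intro h
      exact hk2 (h ▸ mem_rows.2 ⟨x.2, hx⟩)
  simp only [evalPt, h5]

/-- the alternating functionals on the graded pieces -/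
lemma exists_functional {a : ℕ} {r r' s s' : Fin a → Fin n} (hr : Injective (Sum.elim r r'))
    (hs : Injective (Sum.elim s s')) : ∃ ℓ : M n a →ₗ[ℂ] ℂ, ∀ A, ℓ (cls n a (mon A)) =
      ∑ X, ∑ Y, (-1 : ℂ) ^ (X.card + Y.card) *
        if A = plc (repl X r r') (repl Y s s') then 1 else 0 := by
  obtain ⟨g, hg1, hg2, hg3⟩ := exists_family hr hs
  have hker : K n a ≤ LinearMap.ker ((Lam g).comp
      (homogeneousSubmodule (Cell n) ℂ a).subtype) := by
    rintro ⟨f, hf⟩ hfK
    rw [LinearMap.mem_ker]
    change Lam g f = 0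
    obtain ⟨q, hq, hq'⟩ := J_low (show f ∈ J n from hfK) a
    have h1 : Lam g f = Lam g q := by
      change ∑ X, (-1 : ℂ) ^ X.card * eval (evalPt (g X)) f =
        ∑ X, (-1 : ℂ) ^ X.card * eval (evalPt (g X)) q
      refine sum_congr rfl fun X _ => ?_
      rw [← hq', homogeneousComponent_of_mem hf, if_pos rfl]
    rw [h1, Lam_low hr hg3 hq]
  refine ⟨(K n a).liftQ _ hker, fun A => ?_⟩
  by_cases hA : A.card = a
  · have hh : (mon A).IsHomogeneous a := hA ▸ mon_homog A
    rw [cls_homog hh, Submodule.liftQ_apply]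
    exact alt_mon hr hg1 hg2 hg3 hA
  · rw [cls_ne (mon_homog A) hA, map_zero]
    symm
    refine sum_eq_zero fun X _ => sum_eq_zero fun Y _ => ?_
    rw [if_neg, mul_zero]
    intro h
    apply hA
    rw [h]
    unfold plc
    rw [card_image_of_injective, card_univ, Fintype.card_fin]
    intro k l hkl
    exact (repl_inj hr (congrArg Prod.fst hkl)).1

/-- the pair of placements with given rows and columns -/
def PP {a b : ℕ} (ρ κ : Fin a ⊕ Fin b → Fin n) : Pr n :=
  (plc (ρ ∘ Sum.inl) (κ ∘ Sum.inl), plc (ρ ∘ Sum.inr) (κ ∘ Sum.inr))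

/-- the alternating sums of the elements of the kernel vanish -/
theorem alt_qm {a b : ℕ} {w : Pr n → ℂ} (hw : qm n a b w = 0)
    {ρ ρ' κ κ' : Fin a ⊕ Fin b → Fin n}
    (h1 : Injective (Sum.elim (ρ ∘ Sum.inl) (ρ' ∘ Sum.inl)))
    (h2 : Injective (Sum.elim (ρ ∘ Sum.inr) (ρ' ∘ Sum.inr)))
    (h3 : Injective (Sum.elim (κ ∘ Sum.inl) (κ' ∘ Sum.inl)))
    (h4 : Injective (Sum.elim (κ ∘ Sum.inr) (κ' ∘ Sum.inr))) :
    ∑ X, ∑ Y, (-1 : ℂ) ^ (X.card + Y.card) * w (PP (repl X ρ ρ') (repl Y κ κ')) = 0 := by
  classical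
  obtain ⟨ℓ, hℓ⟩ := exists_functional h1 h3
  obtain ⟨ℓ', hℓ'⟩ := exists_functional h2 h4
  have h5 : (LinearMap.mul' ℂ ℂ ∘ₗ TensorProduct.map ℓ ℓ') (qm n a b w) = 0 := by
    rw [hw, map_zero]
  have h6 : (LinearMap.mul' ℂ ℂ ∘ₗ TensorProduct.map ℓ ℓ') (qm n a b w) =
      ∑ p, w p * (ℓ (cls n a (mon p.1)) * ℓ' (cls n b (mon p.2))) := by
    change (LinearMap.mul' ℂ ℂ ∘ₗ TensorProduct.map ℓ ℓ')
      (∑ p, w p • (cls n a (mon p.1) ⊗ₜ[ℂ] cls n b (mon p.2))) = _
    rw [map_sum]
    refine sum_congr rfl fun p _ => ?_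
    rw [map_smul, smul_eq_mul]
    rfl
  rw [h6] at h5
  simp_rw [hℓ, hℓ'] at h5
  -- reorganise
  have h7 : ∀ p : Pr n, w p * ((∑ X, ∑ Y, (-1 : ℂ) ^ (X.card + Y.card) *
        if p.1 = plc (repl X (ρ ∘ Sum.inl) (ρ' ∘ Sum.inl)) (repl Y (κ ∘ Sum.inl) (κ' ∘ Sum.inl))
          then 1 else 0) * (∑ X', ∑ Y', (-1 : ℂ) ^ (X'.card + Y'.card) *
        if p.2 = plc (repl X' (ρ ∘ Sum.inr) (ρ' ∘ Sum.inr)) (repl Y' (κ ∘ Sum.inr) (κ' ∘ Sum.inr))
          then 1 else 0)) =
      ∑ X : Finset (Fin a), ∑ Y : Finset (Fin a), ∑ X' : Finset (Fin b), ∑ Y' : Finset (Fin b),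
        ((-1 : ℂ) ^ (X.card + Y.card) * (-1) ^ (X'.card + Y'.card)) *
        (if p = (plc (repl X (ρ ∘ Sum.inl) (ρ' ∘ Sum.inl)) (repl Y (κ ∘ Sum.inl) (κ' ∘ Sum.inl)),
          plc (repl X' (ρ ∘ Sum.inr) (ρ' ∘ Sum.inr)) (repl Y' (κ ∘ Sum.inr) (κ' ∘ Sum.inr)))
          then w p else 0) := by
    intro p
    rw [sum_mul, mul_sum]
    refine sum_congr rfl fun X _ => ?_
    rw [sum_mul, mul_sum]
    refine sum_congr rfl fun Y _ => ?_
    rw [mul_sum, mul_sum]
    refine sum_congr rfl fun X' _ => ?_
    rw [mul_sum, mul_sum]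
    refine sum_congr rfl fun Y' _ => ?_
    by_cases e1 : p.1 = plc (repl X (ρ ∘ Sum.inl) (ρ' ∘ Sum.inl))
        (repl Y (κ ∘ Sum.inl) (κ' ∘ Sum.inl))
    · by_cases e2 : p.2 = plc (repl X' (ρ ∘ Sum.inr) (ρ' ∘ Sum.inr))
        (repl Y' (κ ∘ Sum.inr) (κ' ∘ Sum.inr))
      · rw [if_pos e1, if_pos e2, if_pos (Prod.ext e1 e2)]
        ring
      · rw [if_neg e2, if_neg (fun h => e2 (congrArg Prod.snd h))]
        ring
    · rw [if_neg e1, if_neg (fun h => e1 (congrArg Prod.fst h))]
      ring
  simp_rw [h7] at h5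
  have hcomm : ∀ (f : Pr n → Finset (Fin a) → Finset (Fin a) → Finset (Fin b) →
      Finset (Fin b) → ℂ), ∑ p, ∑ X, ∑ Y, ∑ X', ∑ Y', f p X Y X' Y' =
      ∑ X, ∑ Y, ∑ X', ∑ Y', ∑ p, f p X Y X' Y' := by
    intro f
    rw [sum_comm]
    refine sum_congr rfl fun X _ => ?_
    rw [sum_comm]
    refine sum_congr rfl fun Y _ => ?_
    rw [sum_comm]
    refine sum_congr rfl fun X' _ => ?_
    rw [sum_comm]
  rw [hcomm] at h5
  simp_rw [← mul_sum, sum_ite_eq', mem_univ, if_true] at h5
  -- pass to subsets of the disjoint union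
  have h8 : ∀ X : Finset (Fin a ⊕ Fin b), ∀ α β : Fin a ⊕ Fin b → Fin n,
      repl X α β ∘ Sum.inl = repl X.toLeft (α ∘ Sum.inl) (β ∘ Sum.inl) ∧
      repl X α β ∘ Sum.inr = repl X.toRight (α ∘ Sum.inr) (β ∘ Sum.inr) := by
    intro X α β
    constructor <;>
    · funext k
      simp [repl]
  have h9 : ∀ (φ : Finset (Fin a ⊕ Fin b) → ℂ), ∑ X, φ X =
      ∑ X : Finset (Fin a), ∑ X' : Finset (Fin b), φ (X.disjSum X') := by
    intro φ
    rw [← Fintype.sum_prod_type', ← Equiv.sum_comp (Finset.sumEquiv (α := Fin a)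
      (β := Fin b)).toEquiv.symm]
    rfl
  rw [h9]
  simp_rw [h9 (fun Y => (-1 : ℂ) ^ _ * w (PP _ (repl Y κ κ')))]
  rw [← h5]
  refine sum_congr rfl fun X _ => ?_
  rw [sum_comm]
  refine sum_congr rfl fun Y _ => ?_
  refine sum_congr rfl fun X' _ => ?_
  refine sum_congr rfl fun Y' _ => ?_
  unfold PP
  rw [(h8 _ ρ ρ').1, (h8 _ ρ ρ').2, (h8 _ κ κ').1, (h8 _ κ κ').2, toLeft_disjSum,
    toLeft_disjSum, toRight_disjSum, toRight_disjSum, card_disjSum, card_disjSum]
  congr 1
  rw [← pow_add]
  congr 1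
  omega

end Pool.Agent.Helper30.PML
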