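import Pool.Agent.Helper30.PML.Func

set_option autoImplicit false

/-! # Injectivity on `W` in the stable range -/

namespace Pool.Agent.Helper30.PML

open Finset MvPolynomial TensorProduct Function

variable {n : ℕ}

lemma plc_inj {a : ℕ} {r s : Fin a → Fin n} (h : IsPl (plc r s)) (hc : (plc r s).card = a) :
    Injective r ∧ Injective s := by
  have h1 : Injective fun k => (r k, s k) := by
    have h2 : (univ.image fun k => (r k, s k)).card = (univ : Finset (Fin a)).card := by
      rw [card_univ, Fintype.card_fin]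
      exact hc
    have := card_image_iff.1 h2
    rwa [coe_univ, Set.injOn_univ] at this
  constructor
  · intro k l hkl
    exact h1 (h _ (mem_plc.2 ⟨k, rfl⟩) _ (mem_plc.2 ⟨l, rfl⟩) (Or.inl hkl))
  · intro k l hkl
    exact h1 (h _ (mem_plc.2 ⟨k, rfl⟩) _ (mem_plc.2 ⟨l, rfl⟩) (Or.inr hkl))

lemma exists_plc {a : ℕ} {A : Finset (Cell n)} (hA : A.card = a) :
    ∃ r s : Fin a → Fin n, A = plc r s := by
  subst hA
  refine ⟨fun k => (A.equivFin.symm k : Cell n).1, fun k => (A.equivFin.symm k : Cell n).2, ?_⟩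
  ext x
  rw [mem_plc]
  constructor
  · intro hx
    exact ⟨A.equivFin ⟨x, hx⟩, by simp⟩
  · rintro ⟨k, rfl⟩
    exact (A.equivFin.symm k).2

lemma rows_plc {a : ℕ} (r s : Fin a → Fin n) : rows (plc r s) = univ.image r := by
  unfold rows plc
  rw [image_image]
  rfl

lemma cols_plc {a : ℕ} (r s : Fin a → Fin n) : cols (plc r s) = univ.image s := by
  unfold cols plc
  rw [image_image]
  rfl

lemma act_plc {a : ℕ} (g : Gp n) (r s : Fin a → Fin n) :
    act g (plc r s) = plc (g.1 ∘ r) (g.2 ∘ s) := by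
  ext x
  rw [mem_act, mem_plc, mem_plc]
  constructor
  · rintro ⟨k, hk⟩
    refine ⟨k, ?_⟩
    have h1 := congrArg Prod.fst hk
    have h2 := congrArg Prod.snd hk
    simp only at h1 h2
    refine Prod.ext ?_ ?_
    · simp [h1]
    · simp [h2]
  · rintro ⟨k, rfl⟩
    exact ⟨k, by simp⟩

variable {a b : ℕ}

lemma actp_PP (g : Gp n) (ρ κ : Fin a ⊕ Fin b → Fin n) :
    actp g (PP ρ κ) = PP (g.1 ∘ ρ) (g.2 ∘ κ) := by
  unfold actp PP
  simp only [act_plc]
  rfl

lemma rows_PP (ρ κ : Fin a ⊕ Fin b → Fin n) :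
    rows ((PP ρ κ).1 ∪ (PP ρ κ).2) = univ.image ρ := by
  rw [rows_union]
  unfold PP
  simp only [rows_plc]
  ext x
  simp

lemma cols_PP (ρ κ : Fin a ⊕ Fin b → Fin n) :
    cols ((PP ρ κ).1 ∪ (PP ρ κ).2) = univ.image κ := by
  rw [cols_union]
  unfold PP
  simp only [cols_plc]
  ext x
  simp

/-- injective on both halves -/
def HI (ρ : Fin a ⊕ Fin b → Fin n) : Prop := Injective (ρ ∘ Sum.inl) ∧ Injective (ρ ∘ Sum.inr)

lemma HI_of_ne {w : Pr n → ℂ} (hw : Supp a b w) {ρ κ : Fin a ⊕ Fin b → Fin n}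
    (h : w (PP ρ κ) ≠ 0) : HI ρ ∧ HI κ := by
  obtain ⟨h1, h2, h3, h4⟩ := hw _ h
  have h5 := plc_inj h1 h3
  have h6 := plc_inj h2 h4
  exact ⟨⟨h5.1, h6.1⟩, ⟨h5.2, h6.2⟩⟩

/-- half-injectivity only depends on the positions outside of a set of free positions -/
lemma HI_of_agree {ρ ρ₁ : Fin a ⊕ Fin b → Fin n} (h : HI ρ₁)
    (hag : ∀ k, k ∉ free ρ → ρ₁ k = ρ k) : HI ρ := by
  have key : ∀ x y, ρ x = ρ y → x ≠ y → ρ₁ x = ρ₁ y := by
    intro x y hxy hne
    have hx : x ∉ free ρ := fun hx => mem_free.1 hx y hne.symm hxy.symm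
    have hy : y ∉ free ρ := fun hy => mem_free.1 hy x hne hxy
    rw [hag x hx, hag y hy, hxy]
  constructor
  · intro x y hxy
    by_contra hne
    exact hne (h.1 (key (Sum.inl x) (Sum.inl y) hxy (fun h => hne (Sum.inl_injective h))))
  · intro x y hxy
    by_contra hne
    exact hne (h.2 (key (Sum.inr x) (Sum.inr y) hxy (fun h => hne (Sum.inr_injective h))))

lemma ord_row {w : Pr n → ℂ} (hw : w ∈ W n a b) {ρ κ : Fin a ⊕ Fin b → Fin n}
    {k : Fin a ⊕ Fin b} (hk : k ∈ free ρ) :
    ∑ t ∈ (off ρ k)ᶜ, w (PP (update ρ k t) κ) = 0 := by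
  have h1 := hw.2.1 (PP ρ κ) (ρ k) (by rw [rows_PP]; exact mem_image_of_mem _ (mem_univ _)) (by
    intro h
    unfold PP at h
    simp only [rows_plc, mem_inter, mem_image, mem_univ, true_and, comp_apply] at h
    obtain ⟨⟨x, hx⟩, ⟨y, hy⟩⟩ := h
    have h2 : Sum.inl x = k := by
      by_contra hne
      exact mem_free.1 hk _ hne hx
    have h3 : Sum.inr y = k := by
      by_contra hne
      exact mem_free.1 hk _ hne hy
    rw [← h3] at h2
    exact Sum.inl_ne_inr h2)
  rw [rows_PP] at h1
  have h2 : (off ρ k)ᶜ = insert (ρ k) (univ.image ρ)ᶜ := by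
    ext t
    rw [mem_insert, mem_compl, mem_compl, mem_off]
    constructor
    · intro h
      by_cases ht : t = ρ k
      · exact Or.inl ht
      · right
        intro h3
        obtain ⟨l, _, hl⟩ := mem_image.1 h3
        refine h ⟨l, ?_, hl⟩
        rintro rfl
        exact ht hl.symm
    · rintro (h | h)
      · rintro ⟨l, hl, hl'⟩
        rw [h] at hl'
        exact mem_free.1 hk l hl hl'
      · rintro ⟨l, hl, hl'⟩
        exact h (hl' ▸ mem_image_of_mem _ (mem_univ _))
  have h3 : ρ k ∉ (univ.image ρ)ᶜ := by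
    rw [mem_compl, not_not]
    exact mem_image_of_mem _ (mem_univ _)
  rw [h2, sum_insert h3, update_eq_self, ← h1]
  congr 1
  refine sum_congr rfl fun t ht => ?_
  rw [actp_PP]
  congr 2
  funext l
  by_cases hl : l = k
  · subst hl
    simp
  · rw [update_of_ne hl, comp_apply]
    symm
    refine Equiv.swap_apply_of_ne_of_ne (mem_free.1 hk l hl) ?_
    rintro rfl
    rw [mem_compl] at ht
    exact ht (mem_image_of_mem _ (mem_univ _))

lemma ord_col {w : Pr n → ℂ} (hw : w ∈ W n a b) {ρ κ : Fin a ⊕ Fin b → Fin n}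
    {k : Fin a ⊕ Fin b} (hk : k ∈ free κ) :
    ∑ t ∈ (off κ k)ᶜ, w (PP ρ (update κ k t)) = 0 := by
  have h1 := hw.2.2 (PP ρ κ) (κ k) (by rw [cols_PP]; exact mem_image_of_mem _ (mem_univ _)) (by
    intro h
    unfold PP at h
    simp only [cols_plc, mem_inter, mem_image, mem_univ, true_and, comp_apply] at h
    obtain ⟨⟨x, hx⟩, ⟨y, hy⟩⟩ := h
    have h2 : Sum.inl x = k := by
      by_contra hne
      exact mem_free.1 hk _ hne hx
    have h3 : Sum.inr y = k := by
      by_contra hne
      exact mem_free.1 hk _ hne hy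
    rw [← h3] at h2
    exact Sum.inl_ne_inr h2)
  rw [cols_PP] at h1
  have h2 : (off κ k)ᶜ = insert (κ k) (univ.image κ)ᶜ := by
    ext t
    rw [mem_insert, mem_compl, mem_compl, mem_off]
    constructor
    · intro h
      by_cases ht : t = κ k
      · exact Or.inl ht
      · right
        intro h3
        obtain ⟨l, _, hl⟩ := mem_image.1 h3
        refine h ⟨l, ?_, hl⟩
        rintro rfl
        exact ht hl.symm
    · rintro (h | h)
      · rintro ⟨l, hl, hl'⟩
        rw [h] at hl'
        exact mem_free.1 hk l hl hl'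
      · rintro ⟨l, hl, hl'⟩
        exact h (hl' ▸ mem_image_of_mem _ (mem_univ _))
  have h3 : κ k ∉ (univ.image κ)ᶜ := by
    rw [mem_compl, not_not]
    exact mem_image_of_mem _ (mem_univ _)
  rw [h2, sum_insert h3, update_eq_self, ← h1]
  congr 1
  refine sum_congr rfl fun t ht => ?_
  rw [actp_PP]
  congr 2
  funext l
  by_cases hl : l = k
  · subst hl
    simp
  · rw [update_of_ne hl, comp_apply]
    symm
    refine Equiv.swap_apply_of_ne_of_ne (mem_free.1 hk l hl) ?_
    rintro rfl
    rw [mem_compl] at ht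
    exact ht (mem_image_of_mem _ (mem_univ _))

lemma free_repl {I : Type*} [Fintype I] [DecidableEq I] {ρ ρ' : I → Fin n} (hp : Ptn ρ ρ')
    (X : Finset I) : free ρ ∪ X ⊆ free (repl X ρ ρ') := by
  intro k hk
  rw [mem_free]
  intro l hl
  unfold repl
  by_cases hkX : k ∈ X
  · rw [if_pos hkX]
    split_ifs
    · exact fun h => hl (hp.1 h)
    · exact fun h => hp.2 k l h.symm
  · rw [if_neg hkX]
    have hk' : k ∈ free ρ := by
      rw [mem_union] at hk
      exact hk.resolve_right hkX
    split_ifs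
    · exact fun h => hp.2 l k h
    · exact mem_free.1 hk' l hl

lemma ptn_halves {ρ ρ' : Fin a ⊕ Fin b → Fin n} (hp : Ptn ρ ρ') (h : HI ρ) :
    Injective (Sum.elim (ρ ∘ Sum.inl) (ρ' ∘ Sum.inl)) ∧
    Injective (Sum.elim (ρ ∘ Sum.inr) (ρ' ∘ Sum.inr)) := by
  constructor
  · rintro (x | x) (y | y) hxy
    · rw [h.1 hxy]
    · exact absurd hxy.symm (hp.2 _ _)
    · exact absurd hxy (hp.2 _ _)
    · rw [Sum.inl_injective (hp.1 hxy)]
  · rintro (x | x) (y | y) hxy
    · rw [h.2 hxy]
    · exact absurd hxy.symm (hp.2 _ _)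
    · exact absurd hxy (hp.2 _ _)
    · rw [Sum.inr_injective (hp.1 hxy)]

/-- `W` injects into the tensor product in the stable range -/
theorem qm_inj (hn : 2 * (a + b) ≤ n) {w : Pr n → ℂ} (hw : w ∈ W n a b)
    (hq : qm n a b w = 0) : w = 0 := by
  classical
  by_contra hne
  obtain ⟨p, hp⟩ := Function.ne_iff.1 hne
  rw [Pi.zero_apply] at hp
  have hcard : 2 * Fintype.card (Fin a ⊕ Fin b) ≤ n := by
    rw [Fintype.card_sum, Fintype.card_fin, Fintype.card_fin]
    exact hn
  -- a pair with a maximal number of free positions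
  obtain ⟨⟨ρ₀, κ₀⟩, hmem, hmax⟩ := exists_max_image
    (univ.filter fun x : (Fin a ⊕ Fin b → Fin n) × (Fin a ⊕ Fin b → Fin n) =>
      w (PP x.1 x.2) ≠ 0) (fun x => (free x.1).card + (free x.2).card) (by
      obtain ⟨-, -, h3, h4⟩ := hw.1 p hp
      obtain ⟨r, s, hrs⟩ := exists_plc h3
      obtain ⟨r', s', hrs'⟩ := exists_plc h4
      refine ⟨(Sum.elim r r', Sum.elim s s'), ?_⟩
      rw [mem_filter]
      refine ⟨mem_univ _, ?_⟩
      have : PP (Sum.elim r r') (Sum.elim s s') = p := by
        unfold PP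
        rw [Sum.elim_comp_inl, Sum.elim_comp_inr, Sum.elim_comp_inl, Sum.elim_comp_inr, ← hrs,
          ← hrs']
      simp only
      rw [this]
      exact hp)
  rw [mem_filter] at hmem
  have hne₀ : w (PP ρ₀ κ₀) ≠ 0 := hmem.2
  have hmax' : ∀ ρ κ, w (PP ρ κ) ≠ 0 → (free ρ).card + (free κ).card ≤
      (free ρ₀).card + (free κ₀).card := fun ρ κ h =>
    hmax (ρ, κ) (mem_filter.2 ⟨mem_univ _, h⟩)
  have claimA : ∀ ρ κ κ', free ρ = free ρ₀ → free κ = free κ₀ → Ptn κ κ' →
      ∑ Y ∈ (free κ₀).powerset, (-1 : ℂ) ^ Y.card * w (PP ρ (repl Y κ κ')) = 0 := by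
    intro ρ κ κ' hρ hκ hκ'
    refine E_one (Fr := free ρ₀)
      (g := fun ρ => ∑ Y ∈ (free κ₀).powerset, (-1 : ℂ) ^ Y.card * w (PP ρ (repl Y κ κ')))
      hcard ?_ ?_ hρ
    · intro ρ hρ k hk
      rw [sum_comm]
      refine sum_eq_zero fun Y _ => ?_
      rw [← mul_sum, ord_row hw (by rw [hρ]; exact hk), mul_zero]
    · intro ρ ρ' hρ hρ'
      by_cases hHI : HI ρ ∧ HI κ
      · have h1 := alt_qm hq (ptn_halves hρ' hHI.1).1 (ptn_halves hρ' hHI.1).2
          (ptn_halves hκ' hHI.2).1 (ptn_halves hκ' hHI.2).2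
        rw [← h1]
        have hXsub : ∀ X Y, w (PP (repl X ρ ρ') (repl Y κ κ')) ≠ 0 →
            X ⊆ free ρ₀ ∧ Y ⊆ free κ₀ := by
          intro X Y h
          have h2 := hmax' _ _ h
          have h3 := free_repl hρ' X
          have h4 := free_repl hκ' Y
          rw [hρ] at h3
          rw [hκ] at h4
          have h5 := card_le_card h3
          have h6 := card_le_card h4
          have h7 : (free ρ₀).card ≤ (free ρ₀ ∪ X).card := card_le_card subset_union_left
          have h8 : (free κ₀).card ≤ (free κ₀ ∪ Y).card := card_le_card subset_union_left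
          constructor
          · have h9 : free ρ₀ = free ρ₀ ∪ X :=
              eq_of_subset_of_card_le subset_union_left (by omega)
            rw [h9]
            exact subset_union_right
          · have h9 : free κ₀ = free κ₀ ∪ Y :=
              eq_of_subset_of_card_le subset_union_left (by omega)
            rw [h9]
            exact subset_union_right
        rw [← sum_subset (subset_univ (free ρ₀).powerset)]
        · refine sum_congr rfl fun X _ => ?_
          rw [mul_sum, ← sum_subset (subset_univ (free κ₀).powerset)]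
          · refine sum_congr rfl fun Y _ => ?_
            rw [pow_add]
            ring
          · intro Y _ hY
            by_contra h2
            exact hY (mem_powerset.2 (hXsub X Y (right_ne_zero_of_mul h2)).2)
        · intro X _ hX
          refine sum_eq_zero fun Y _ => ?_
          by_contra h2
          exact hX (mem_powerset.2 (hXsub X Y (right_ne_zero_of_mul h2)).1)
      · refine sum_eq_zero fun X hX => ?_
        rw [sum_eq_zero, mul_zero]
        intro Y hY
        by_contra h2
        obtain ⟨h3, h4⟩ := HI_of_ne hw.1 (right_ne_zero_of_mul h2)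
        apply hHI
        constructor
        · refine HI_of_agree h3 fun k hk => ?_
          unfold repl
          rw [if_neg]
          intro hkX
          apply hk
          rw [hρ]
          exact mem_powerset.1 hX hkX
        · refine HI_of_agree h4 fun k hk => ?_
          unfold repl
          rw [if_neg]
          intro hkX
          apply hk
          rw [hκ]
          exact mem_powerset.1 hY hkX
  apply hne₀
  refine E_one (Fr := free κ₀) (g := fun κ => w (PP ρ₀ κ)) hcard ?_ ?_ rfl
  · intro κ hκ k hk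
    exact ord_col hw (by rw [hκ]; exact hk)
  · intro κ κ' hκ hκ'
    exact claimA ρ₀ κ κ' rfl hκ hκ'

end Pool.Agent.Helper30.PML
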