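import Pool.Agent.Helper30.PML.Act

set_option autoImplicit false

/-! # The graded quotient `R / I_n` -/

namespace Pool.Agent.Helper30.PML

open Finset MvPolynomial TensorProduct

variable {n : ℕ}

/-- the point of the permutation matrix locus given by `w` -/
def evalPt (w : Equiv.Perm (Fin n)) : Cell n → ℂ := fun p => if w p.1 = p.2 then (1 : ℂ) else 0

/-- the ideal `I_n` -/
noncomputable def J (n : ℕ) : Ideal (MvPolynomial (Cell n) ℂ) :=
  Ideal.span {g : MvPolynomial (Cell n) ℂ | ∃ f : MvPolynomial (Cell n) ℂ,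
      (∀ w : Equiv.Perm (Fin n), MvPolynomial.eval (evalPt w) f = 0) ∧
      g = MvPolynomial.homogeneousComponent f.totalDegree f}

/-- its homogeneous part -/
noncomputable def K (n d : ℕ) : Submodule ℂ ↥(MvPolynomial.homogeneousSubmodule (Cell n) ℂ d) :=
  Submodule.comap (MvPolynomial.homogeneousSubmodule (Cell n) ℂ d).subtype
        (Submodule.restrictScalars ℂ (J n))

/-- the graded piece of the quotient -/
abbrev M (n d : ℕ) := ↥(MvPolynomial.homogeneousSubmodule (Cell n) ℂ d) ⧸ K n d

lemma mem_J_of {d : ℕ} {g r : MvPolynomial (Cell n) ℂ} (hg : g.IsHomogeneous d)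
    (hr : r.totalDegree < d) (hv : ∀ w, eval (evalPt w) (g + r) = 0) : g ∈ J n := by
  by_cases hg0 : g = 0
  · rw [hg0]
    exact zero_mem _
  have h1 : g.totalDegree = d := hg.totalDegree hg0
  have h2 : (g + r).totalDegree = d := by
    rw [totalDegree_add_eq_left_of_totalDegree_lt (by rw [h1]; exact hr), h1]
  refine Ideal.subset_span ⟨g + r, hv, ?_⟩
  rw [h2, map_add, homogeneousComponent_of_mem ((mem_homogeneousSubmodule _ _).2 hg), if_pos rfl,
    homogeneousComponent_eq_zero d r hr, add_zero]

lemma XX_mem {x y : Cell n} (h : Adj x y) : (X x * X y : MvPolynomial (Cell n) ℂ) ∈ J n := by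
  have hh : (X x * X y : MvPolynomial (Cell n) ℂ).IsHomogeneous 2 :=
    (isHomogeneous_X ℂ x).mul (isHomogeneous_X ℂ y)
  by_cases hxy : x = y
  · subst hxy
    refine mem_J_of (r := -X x) hh ?_ ?_
    · rw [totalDegree_neg, totalDegree_X]
      norm_num
    · intro w
      simp only [map_add, map_mul, map_neg, eval_X, evalPt]
      split_ifs <;> norm_num
  · refine mem_J_of (r := 0) hh (by simp) ?_
    intro w
    simp only [add_zero, map_mul, eval_X, evalPt]
    by_cases h1 : w x.1 = x.2
    · by_cases h2 : w y.1 = y.2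
      · exfalso
        rcases h with h | h
        · exact hxy (Prod.ext h (by rw [← h1, ← h2, h]))
        · rw [← h1, ← h2] at h
          exact hxy (Prod.ext (w.injective h) (by rw [← h1, ← h2, w.injective h]))
      · rw [if_neg h2, mul_zero]
    · rw [if_neg h1, zero_mul]

lemma sum_row_mem (i : Fin n) : (∑ j, X (i, j) : MvPolynomial (Cell n) ℂ) ∈ J n := by
  refine mem_J_of (d := 1) (r := -1) ?_ (by simp) ?_
  · exact IsHomogeneous.sum _ _ _ fun j _ => isHomogeneous_X ℂ _
  · intro w
    simp only [map_add, map_sum, map_neg, map_one, eval_X, evalPt]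
    rw [sum_ite_eq]
    simp

lemma sum_col_mem (j : Fin n) : (∑ i, X (i, j) : MvPolynomial (Cell n) ℂ) ∈ J n := by
  refine mem_J_of (d := 1) (r := -1) ?_ (by simp) ?_
  · exact IsHomogeneous.sum _ _ _ fun j _ => isHomogeneous_X ℂ _
  · intro w
    simp only [map_add, map_sum, map_neg, map_one, eval_X, evalPt]
    have h1 : ∀ i, (if w i = j then (1 : ℂ) else 0) = if i = w.symm j then 1 else 0 := by
      intro i
      congr 1
      rw [Equiv.eq_symm_apply]
    simp_rw [h1]
    rw [sum_ite_eq']
    simp

/-- the class of the component of degree `a` -/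
noncomputable def cls (n a : ℕ) : MvPolynomial (Cell n) ℂ →ₗ[ℂ] M n a :=
  (K n a).mkQ ∘ₗ LinearMap.codRestrict (homogeneousSubmodule (Cell n) ℂ a)
    (homogeneousComponent a) (fun f => homogeneousComponent_mem a f)

lemma cls_homog {a : ℕ} {f : MvPolynomial (Cell n) ℂ} (hf : f.IsHomogeneous a) :
    cls n a f = Submodule.Quotient.mk ⟨f, hf⟩ := by
  unfold cls
  rw [LinearMap.comp_apply, Submodule.mkQ_apply]
  congr 1
  ext1
  change homogeneousComponent a f = f
  rw [homogeneousComponent_of_mem ((mem_homogeneousSubmodule _ _).2 hf), if_pos rfl]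

lemma cls_ne {a b : ℕ} {f : MvPolynomial (Cell n) ℂ} (hf : f.IsHomogeneous b) (hab : b ≠ a) :
    cls n a f = 0 := by
  unfold cls
  rw [LinearMap.comp_apply, Submodule.mkQ_apply]
  have : (LinearMap.codRestrict (homogeneousSubmodule (Cell n) ℂ a)
    (homogeneousComponent a) (fun f => homogeneousComponent_mem a f)) f = 0 := by
    ext1
    change homogeneousComponent a f = 0
    rw [homogeneousComponent_of_mem ((mem_homogeneousSubmodule _ _).2 hf), if_neg hab.symm]
  rw [this]
  rfl

lemma cls_J {a b : ℕ} {f : MvPolynomial (Cell n) ℂ} (hf : f.IsHomogeneous b) (hJ : f ∈ J n) :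
    cls n a f = 0 := by
  by_cases hab : b = a
  · subst hab
    rw [cls_homog hf, Submodule.Quotient.mk_eq_zero]
    exact hJ
  · exact cls_ne hf hab

/-- the monomial of a set of cells -/
noncomputable def mon (A : Finset (Cell n)) : MvPolynomial (Cell n) ℂ := ∏ x ∈ A, X x

lemma mon_homog (A : Finset (Cell n)) : (mon A).IsHomogeneous A.card := by
  unfold mon
  have := IsHomogeneous.prod A (fun x => (X x : MvPolynomial (Cell n) ℂ)) (fun _ => 1)
    (fun x _ => isHomogeneous_X ℂ x)
  simpa using this

lemma mon_not_pl {A : Finset (Cell n)} (h : ¬ IsPl A) : mon A ∈ J n := by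
  unfold IsPl at h
  push Not at h
  obtain ⟨x, hx, y, hy, hxy, hne⟩ := h
  unfold mon
  rw [← mul_prod_erase A _ hx, ← mul_prod_erase (A.erase x) _ (mem_erase.2 ⟨Ne.symm hne, hy⟩),
    ← mul_assoc]
  exact Ideal.mul_mem_right _ _ (XX_mem hxy)

lemma cls_mon_ne {a : ℕ} {A : Finset (Cell n)} (h : cls n a (mon A) ≠ 0) :
    IsPl A ∧ A.card = a := by
  constructor
  · by_contra hcon
    exact h (cls_J (mon_homog A) (mon_not_pl hcon))
  · by_contra hcon
    exact h (cls_ne (mon_homog A) hcon)

lemma cls_mem_span (a : ℕ) (f : MvPolynomial (Cell n) ℂ) :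
    cls n a f ∈ Submodule.span ℂ (Set.range fun A : Finset (Cell n) => cls n a (mon A)) := by
  induction f using MvPolynomial.induction_on' with
  | monomial m c =>
    have hmon : (monomial m c : MvPolynomial (Cell n) ℂ) = c • monomial m 1 := by
      rw [smul_monomial, smul_eq_mul, mul_one]
    rw [hmon, map_smul]
    refine Submodule.smul_mem _ _ ?_
    have hh : (monomial m (1 : ℂ)).IsHomogeneous m.degree := isHomogeneous_monomial _ rfl
    have hprod : (monomial m (1 : ℂ)) = ∏ x ∈ m.support, X x ^ m x := by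
      rw [monomial_eq, map_one, one_mul]
      rfl
    by_cases hex : ∃ x, 2 ≤ m x
    · obtain ⟨x, hx⟩ := hex
      rw [cls_J hh]
      · exact zero_mem _
      have hxs : x ∈ m.support := by
        rw [Finsupp.mem_support_iff]
        omega
      rw [hprod, ← mul_prod_erase _ _ hxs]
      refine Ideal.mul_mem_right _ _ ?_
      obtain ⟨k, hk⟩ := Nat.exists_eq_add_of_le hx
      rw [hk, pow_add, pow_two]
      exact Ideal.mul_mem_right _ _ (XX_mem (Adj.refl x))
    · push Not at hex
      refine Submodule.subset_span ⟨m.support, ?_⟩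
      simp only
      congr 1
      rw [hprod]
      unfold mon
      refine prod_congr rfl fun x hx => ?_
      have h1 := hex x
      rw [Finsupp.mem_support_iff] at hx
      have h2 : m x = 1 := by omega
      rw [h2, pow_one]
  | add p q hp hq =>
    rw [map_add]
    exact add_mem hp hq

lemma M_mem_span (a : ℕ) (x : M n a) :
    x ∈ Submodule.span ℂ (Set.range fun A : Finset (Cell n) => cls n a (mon A)) := by
  obtain ⟨⟨f, hf⟩, rfl⟩ := Submodule.Quotient.mk_surjective _ x
  have h1 : f.IsHomogeneous a := (mem_homogeneousSubmodule _ _).1 hf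
  have := cls_mem_span a f
  rwa [cls_homog h1] at this

lemma rel_row {a : ℕ} (A : Finset (Cell n)) (j : Fin n) :
    ∑ t ∈ (rows A)ᶜ, cls n a (mon (insert (t, j) A)) = 0 := by
  have h1 : cls n a ((∑ t, X (t, j)) * mon A) = 0 := by
    refine cls_J (b := 1 + A.card) ?_ (Ideal.mul_mem_right _ _ (sum_col_mem j))
    exact (IsHomogeneous.sum _ _ _ fun j _ => isHomogeneous_X ℂ _).mul (mon_homog A)
  rw [sum_mul, map_sum, ← sum_compl_add_sum (rows A)] at h1
  have h2 : ∑ t ∈ rows A, cls n a (X (t, j) * mon A) = 0 := by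
    refine sum_eq_zero fun t ht => ?_
    obtain ⟨k, hk⟩ := mem_rows.1 ht
    refine cls_J (b := 1 + A.card) ((isHomogeneous_X ℂ _).mul (mon_homog A)) ?_
    unfold mon
    rw [← mul_prod_erase A _ hk, ← mul_assoc]
    exact Ideal.mul_mem_right _ _ (XX_mem (Or.inl rfl))
  rw [h2, add_zero] at h1
  rw [← h1]
  refine sum_congr rfl fun t ht => ?_
  rw [mem_compl] at ht
  have h3 : (t, j) ∉ A := fun h => ht (mem_rows.2 ⟨j, h⟩)
  unfold mon
  rw [prod_insert h3]

lemma rel_col {a : ℕ} (A : Finset (Cell n)) (i : Fin n) :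
    ∑ t ∈ (cols A)ᶜ, cls n a (mon (insert (i, t) A)) = 0 := by
  have h1 : cls n a ((∑ t, X (i, t)) * mon A) = 0 := by
    refine cls_J (b := 1 + A.card) ?_ (Ideal.mul_mem_right _ _ (sum_row_mem i))
    exact (IsHomogeneous.sum _ _ _ fun j _ => isHomogeneous_X ℂ _).mul (mon_homog A)
  rw [sum_mul, map_sum, ← sum_compl_add_sum (cols A)] at h1
  have h2 : ∑ t ∈ cols A, cls n a (X (i, t) * mon A) = 0 := by
    refine sum_eq_zero fun t ht => ?_
    obtain ⟨k, hk⟩ := mem_cols.1 ht
    refine cls_J (b := 1 + A.card) ((isHomogeneous_X ℂ _).mul (mon_homog A)) ?_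
    unfold mon
    rw [← mul_prod_erase A _ hk, ← mul_assoc]
    exact Ideal.mul_mem_right _ _ (XX_mem (Or.inr rfl))
  rw [h2, add_zero] at h1
  rw [← h1]
  refine sum_congr rfl fun t ht => ?_
  rw [mem_compl] at ht
  have h3 : (i, t) ∉ A := fun h => ht (mem_cols.2 ⟨i, h⟩)
  unfold mon
  rw [prod_insert h3]

/-- the map from functions on pairs to the tensor product -/
noncomputable def qm (n a b : ℕ) : (Pr n → ℂ) →ₗ[ℂ] M n a ⊗[ℂ] M n b where
  toFun w := ∑ p, w p • (cls n a (mon p.1) ⊗ₜ[ℂ] cls n b (mon p.2))
  map_add' := by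
    intro w v
    simp only [Pi.add_apply, add_smul, sum_add_distrib]
  map_smul' := by
    intro c w
    simp only [Pi.smul_apply, smul_eq_mul, mul_smul, smul_sum, RingHom.id_apply]

/-- the overlap -/
def ov (p : Pr n) : ℕ := (rows p.1 ∩ rows p.2).card + (cols p.1 ∩ cols p.2).card

lemma row_harm1 {f : Pr n → ℂ} {c : ℕ} (hpl : ∀ p, f p ≠ 0 → IsPl p.1)
    (hmax : ∀ p, f p ≠ 0 → ov p ≤ c)
    (hrel : ∀ (A B : Finset (Cell n)) (j : Fin n), ∑ t ∈ (rows A)ᶜ, f (insert (t, j) A, B) = 0)
    {p : Pr n} {i : Fin n} (hp : ov p = c) (hi : i ∈ rows p.1) (hi' : i ∉ rows p.2) :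
    f p + ∑ t ∈ (rows (p.1 ∪ p.2))ᶜ, f (actp (Equiv.swap i t, 1) p) = 0 := by
  by_cases h1 : IsPl p.1
  swap
  · have e1 : f p = 0 := by
      by_contra h
      exact h1 (hpl p h)
    have e2 : ∀ t, f (actp (Equiv.swap i t, 1) p) = 0 := by
      intro t
      by_contra h
      exact h1 (isPl_act_iff.1 (hpl _ h))
    simp [e1, e2]
  obtain ⟨j, hj⟩ := mem_rows.1 hi
  have hrows : rows (p.1.erase (i, j)) = (rows p.1).erase i := by
    ext k
    rw [mem_rows, mem_erase, mem_rows]
    constructor
    · rintro ⟨l, hl⟩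
      rw [mem_erase] at hl
      refine ⟨?_, l, hl.2⟩
      rintro rfl
      exact hl.1 (h1 _ hl.2 _ hj (Or.inl rfl))
    · rintro ⟨hk, l, hl⟩
      refine ⟨l, mem_erase.2 ⟨?_, hl⟩⟩
      intro h
      exact hk (congrArg Prod.fst h)
  have hcolsE : cols (p.1.erase (i, j)) = (cols p.1).erase j := by
    ext k
    rw [mem_cols, mem_erase, mem_cols]
    constructor
    · rintro ⟨l, hl⟩
      rw [mem_erase] at hl
      refine ⟨?_, l, hl.2⟩
      rintro rfl
      exact hl.1 (h1 _ hl.2 _ hj (Or.inr rfl))
    · rintro ⟨hk, l, hl⟩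
      refine ⟨l, mem_erase.2 ⟨?_, hl⟩⟩
      intro h
      exact hk (congrArg Prod.snd h)
  have hjc : j ∈ cols p.1 := mem_cols.2 ⟨i, hj⟩
  have hrel' := hrel (p.1.erase (i, j)) p.2 j
  rw [hrows] at hrel'
  have hiT : i ∉ (rows (p.1 ∪ p.2))ᶜ := by
    rw [mem_compl, not_not, rows_union]
    exact mem_union_left _ hi
  have hsub : insert i (rows (p.1 ∪ p.2))ᶜ ⊆ ((rows p.1).erase i)ᶜ := by
    intro t ht
    rw [mem_insert, mem_compl, rows_union, mem_union] at ht
    rw [mem_compl, mem_erase]
    rcases ht with ht | ht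
    · exact fun h => h.1 ht
    · exact fun h => ht (Or.inl h.2)
  rw [← sum_subset hsub] at hrel'
  · rw [sum_insert hiT, insert_erase hj] at hrel'
    rw [← hrel']
    congr 1
    refine sum_congr rfl fun t ht => ?_
    rw [mem_compl, rows_union, mem_union] at ht
    push Not at ht
    have hit : i ≠ t := by
      rintro rfl
      exact ht.1 hi
    congr 1
    refine Prod.ext ?_ ?_
    · ext x
      change x ∈ act (Equiv.swap i t, 1) p.1 ↔ x ∈ insert (t, j) (p.1.erase (i, j))
      rw [mem_act, mem_insert, mem_erase]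
      simp only [Equiv.symm_swap]
      change (Equiv.swap i t x.1, x.2) ∈ p.1 ↔ _
      rcases eq_or_ne x.1 t with h2 | h2
      · rw [h2, Equiv.swap_apply_right]
        constructor
        · intro h
          left
          refine Prod.ext h2 ?_
          have h5 := congrArg Prod.snd (h1 _ h _ hj (Or.inl rfl))
          exact h5
        · rintro (h | h)
          · rw [h]
            exact hj
          · exfalso
            apply ht.1
            rw [← h2]
            exact mem_rows.2 ⟨x.2, h.2⟩
      · rcases eq_or_ne x.1 i with h3 | h3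
        · rw [h3, Equiv.swap_apply_left]
          constructor
          · intro h
            exact absurd (mem_rows.2 ⟨_, h⟩) ht.1
          · rintro (h | h)
            · exfalso
              rw [h] at h3
              exact hit h3.symm
            · exfalso
              apply h.1
              exact h1 _ h.2 _ hj (Or.inl h3)
        · rw [Equiv.swap_apply_of_ne_of_ne h3 h2]
          constructor
          · intro h
            right
            refine ⟨?_, h⟩
            intro h4
            exact h3 (congrArg Prod.fst h4)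
          · rintro (h | h)
            · exact absurd (congrArg Prod.fst h) h2
            · exact h.2
    · ext x
      change x ∈ act (Equiv.swap i t, 1) p.2 ↔ x ∈ p.2
      rw [mem_act]
      simp only [Equiv.symm_swap]
      change (Equiv.swap i t x.1, x.2) ∈ p.2 ↔ _
      rcases eq_or_ne x.1 t with h2 | h2
      · rw [h2, Equiv.swap_apply_right]
        constructor
        · intro h
          exact absurd (mem_rows.2 ⟨_, h⟩) hi'
        · intro h
          exact absurd (mem_rows.2 ⟨x.2, by rw [← h2]; exact h⟩) ht.2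
      · rcases eq_or_ne x.1 i with h3 | h3
        · rw [h3, Equiv.swap_apply_left]
          constructor
          · intro h
            exact absurd (mem_rows.2 ⟨_, h⟩) ht.2
          · intro h
            exact absurd (mem_rows.2 ⟨x.2, by rw [← h3]; exact h⟩) hi'
        · rw [Equiv.swap_apply_of_ne_of_ne h3 h2]
  · intro t ht ht'
    rw [mem_compl, mem_erase] at ht
    rw [mem_insert, mem_compl, rows_union, mem_union] at ht'
    push Not at ht ht'
    have ht1 : t ∉ rows p.1 := fun h => absurd h (ht ht'.1)
    have ht2 : t ∈ rows p.2 := by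
      rcases ht'.2 with h | h
      · exact absurd h ht1
      · exact h
    by_contra hne
    have h2 := hmax _ hne
    have h3 : ov (insert (t, j) (p.1.erase (i, j)), p.2) = ov p + 1 := by
      unfold ov
      simp only
      have e1 : rows (insert (t, j) (p.1.erase (i, j))) = insert t ((rows p.1).erase i) := by
        rw [← hrows]
        exact image_insert ..
      have e2 : cols (insert (t, j) (p.1.erase (i, j))) = cols p.1 := by
        have : cols (insert (t, j) (p.1.erase (i, j))) = insert j (cols (p.1.erase (i, j))) :=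
          image_insert ..
        rw [this, hcolsE, insert_erase hjc]
      have e3 : insert t ((rows p.1).erase i) ∩ rows p.2 = insert t (rows p.1 ∩ rows p.2) := by
        ext x
        simp only [mem_inter, mem_insert, mem_erase]
        constructor
        · rintro ⟨h4 | h4, h5⟩
          · exact Or.inl h4
          · exact Or.inr ⟨h4.2, h5⟩
        · rintro (h4 | h4)
          · exact ⟨Or.inl h4, h4 ▸ ht2⟩
          · refine ⟨Or.inr ⟨?_, h4.1⟩, h4.2⟩
            rintro rfl
            exact hi' h4.2
      rw [e1, e2, e3, card_insert_of_notMem (fun h => ht1 (mem_inter.1 h).1)]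
      omega
    omega

lemma col_harm1 {f : Pr n → ℂ} {c : ℕ} (hpl : ∀ p, f p ≠ 0 → IsPl p.1)
    (hmax : ∀ p, f p ≠ 0 → ov p ≤ c)
    (hrel : ∀ (A B : Finset (Cell n)) (j : Fin n), ∑ t ∈ (cols A)ᶜ, f (insert (j, t) A, B) = 0)
    {p : Pr n} {i : Fin n} (hp : ov p = c) (hi : i ∈ cols p.1) (hi' : i ∉ cols p.2) :
    f p + ∑ t ∈ (cols (p.1 ∪ p.2))ᶜ, f (actp (1, Equiv.swap i t) p) = 0 := by
  by_cases h1 : IsPl p.1
  swap
  · have e1 : f p = 0 := by
      by_contra h
      exact h1 (hpl p h)
    have e2 : ∀ t, f (actp (1, Equiv.swap i t) p) = 0 := by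
      intro t
      by_contra h
      exact h1 (isPl_act_iff.1 (hpl _ h))
    simp [e1, e2]
  obtain ⟨j, hj⟩ := mem_cols.1 hi
  have hcols : cols (p.1.erase (j, i)) = (cols p.1).erase i := by
    ext k
    rw [mem_cols, mem_erase, mem_cols]
    constructor
    · rintro ⟨l, hl⟩
      rw [mem_erase] at hl
      refine ⟨?_, l, hl.2⟩
      rintro rfl
      exact hl.1 (h1 _ hl.2 _ hj (Or.inr rfl))
    · rintro ⟨hk, l, hl⟩
      refine ⟨l, mem_erase.2 ⟨?_, hl⟩⟩
      intro h
      exact hk (congrArg Prod.snd h)
  have hrowsE : rows (p.1.erase (j, i)) = (rows p.1).erase j := by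
    ext k
    rw [mem_rows, mem_erase, mem_rows]
    constructor
    · rintro ⟨l, hl⟩
      rw [mem_erase] at hl
      refine ⟨?_, l, hl.2⟩
      rintro rfl
      exact hl.1 (h1 _ hl.2 _ hj (Or.inl rfl))
    · rintro ⟨hk, l, hl⟩
      refine ⟨l, mem_erase.2 ⟨?_, hl⟩⟩
      intro h
      exact hk (congrArg Prod.fst h)
  have hjc : j ∈ rows p.1 := mem_rows.2 ⟨i, hj⟩
  have hrel' := hrel (p.1.erase (j, i)) p.2 j
  rw [hcols] at hrel'
  have hiT : i ∉ (cols (p.1 ∪ p.2))ᶜ := by
    rw [mem_compl, not_not, cols_union]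
    exact mem_union_left _ hi
  have hsub : insert i (cols (p.1 ∪ p.2))ᶜ ⊆ ((cols p.1).erase i)ᶜ := by
    intro t ht
    rw [mem_insert, mem_compl, cols_union, mem_union] at ht
    rw [mem_compl, mem_erase]
    rcases ht with ht | ht
    · exact fun h => h.1 ht
    · exact fun h => ht (Or.inl h.2)
  rw [← sum_subset hsub] at hrel'
  · rw [sum_insert hiT, insert_erase hj] at hrel'
    rw [← hrel']
    congr 1
    refine sum_congr rfl fun t ht => ?_
    rw [mem_compl, cols_union, mem_union] at ht
    push Not at ht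
    have hit : i ≠ t := by
      rintro rfl
      exact ht.1 hi
    congr 1
    refine Prod.ext ?_ ?_
    · ext x
      change x ∈ act (1, Equiv.swap i t) p.1 ↔ x ∈ insert (j, t) (p.1.erase (j, i))
      rw [mem_act, mem_insert, mem_erase]
      simp only [Equiv.symm_swap]
      change (x.1, Equiv.swap i t x.2) ∈ p.1 ↔ _
      rcases eq_or_ne x.2 t with h2 | h2
      · rw [h2, Equiv.swap_apply_right]
        constructor
        · intro h
          left
          refine Prod.ext ?_ h2
          have h5 := congrArg Prod.fst (h1 _ h _ hj (Or.inr rfl))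
          exact h5
        · rintro (h | h)
          · rw [h]
            exact hj
          · exfalso
            apply ht.1
            rw [← h2]
            exact mem_cols.2 ⟨x.1, h.2⟩
      · rcases eq_or_ne x.2 i with h3 | h3
        · rw [h3, Equiv.swap_apply_left]
          constructor
          · intro h
            exact absurd (mem_cols.2 ⟨_, h⟩) ht.1
          · rintro (h | h)
            · exfalso
              rw [h] at h3
              exact hit h3.symm
            · exfalso
              apply h.1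
              exact h1 _ h.2 _ hj (Or.inr h3)
        · rw [Equiv.swap_apply_of_ne_of_ne h3 h2]
          constructor
          · intro h
            right
            refine ⟨?_, h⟩
            intro h4
            exact h3 (congrArg Prod.snd h4)
          · rintro (h | h)
            · exact absurd (congrArg Prod.snd h) h2
            · exact h.2
    · ext x
      change x ∈ act (1, Equiv.swap i t) p.2 ↔ x ∈ p.2
      rw [mem_act]
      simp only [Equiv.symm_swap]
      change (x.1, Equiv.swap i t x.2) ∈ p.2 ↔ _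
      rcases eq_or_ne x.2 t with h2 | h2
      · rw [h2, Equiv.swap_apply_right]
        constructor
        · intro h
          exact absurd (mem_cols.2 ⟨_, h⟩) hi'
        · intro h
          exact absurd (mem_cols.2 ⟨x.1, by rw [← h2]; exact h⟩) ht.2
      · rcases eq_or_ne x.2 i with h3 | h3
        · rw [h3, Equiv.swap_apply_left]
          constructor
          · intro h
            exact absurd (mem_cols.2 ⟨_, h⟩) ht.2
          · intro h
            exact absurd (mem_cols.2 ⟨x.1, by rw [← h3]; exact h⟩) hi'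
        · rw [Equiv.swap_apply_of_ne_of_ne h3 h2]
  · intro t ht ht'
    rw [mem_compl, mem_erase] at ht
    rw [mem_insert, mem_compl, cols_union, mem_union] at ht'
    push Not at ht ht'
    have ht1 : t ∉ cols p.1 := fun h => absurd h (ht ht'.1)
    have ht2 : t ∈ cols p.2 := by
      rcases ht'.2 with h | h
      · exact absurd h ht1
      · exact h
    by_contra hne
    have h2 := hmax _ hne
    have h3 : ov (insert (j, t) (p.1.erase (j, i)), p.2) = ov p + 1 := by
      unfold ov
      simp only
      have e1 : cols (insert (j, t) (p.1.erase (j, i))) = insert t ((cols p.1).erase i) := by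
        rw [← hcols]
        exact image_insert ..
      have e2 : rows (insert (j, t) (p.1.erase (j, i))) = rows p.1 := by
        have : rows (insert (j, t) (p.1.erase (j, i))) = insert j (rows (p.1.erase (j, i))) :=
          image_insert ..
        rw [this, hrowsE, insert_erase hjc]
      have e3 : insert t ((cols p.1).erase i) ∩ cols p.2 = insert t (cols p.1 ∩ cols p.2) := by
        ext x
        simp only [mem_inter, mem_insert, mem_erase]
        constructor
        · rintro ⟨h4 | h4, h5⟩
          · exact Or.inl h4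
          · exact Or.inr ⟨h4.2, h5⟩
        · rintro (h4 | h4)
          · exact ⟨Or.inl h4, h4 ▸ ht2⟩
          · refine ⟨Or.inr ⟨?_, h4.1⟩, h4.2⟩
            rintro rfl
            exact hi' h4.2
      rw [e1, e2, e3, card_insert_of_notMem (fun h => ht1 (mem_inter.1 h).1)]
      omega
    omega

lemma ov_actp (g : Gp n) (p : Pr n) : ov (actp g p) = ov p := by
  have h1 : rows (act g p.1) ∩ rows (act g p.2) = (rows p.1 ∩ rows p.2).map g.1.toEmbedding := by
    ext x
    rw [mem_inter, mem_rows_act, mem_rows_act, mem_map_equiv, mem_inter]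
  have h2 : cols (act g p.1) ∩ cols (act g p.2) = (cols p.1 ∩ cols p.2).map g.2.toEmbedding := by
    ext x
    rw [mem_inter, mem_cols_act, mem_cols_act, mem_map_equiv, mem_inter]
  unfold ov actp
  simp only
  rw [h1, h2, card_map, card_map]

lemma ov_swap (p : Pr n) : ov p.swap = ov p := by
  unfold ov
  rw [Prod.fst_swap, Prod.snd_swap, inter_comm, inter_comm (cols p.2)]

lemma actp_swap (g : Gp n) (p : Pr n) : actp g p.swap = (actp g p).swap := rfl

lemma row_harm {f : Pr n → ℂ} {c : ℕ} (hpl : ∀ p, f p ≠ 0 → IsPl p.1 ∧ IsPl p.2)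
    (hmax : ∀ p, f p ≠ 0 → ov p ≤ c)
    (hrel : ∀ (A B : Finset (Cell n)) (j : Fin n), ∑ t ∈ (rows A)ᶜ, f (insert (t, j) A, B) = 0)
    (hrel' : ∀ (A B : Finset (Cell n)) (j : Fin n), ∑ t ∈ (rows B)ᶜ, f (A, insert (t, j) B) = 0)
    {p : Pr n} {i : Fin n} (hp : ov p = c) (hi : i ∈ rows (p.1 ∪ p.2))
    (hi' : i ∉ rows p.1 ∩ rows p.2) :
    f p + ∑ t ∈ (rows (p.1 ∪ p.2))ᶜ, f (actp (Equiv.swap i t, 1) p) = 0 := by
  rw [rows_union, mem_union] at hi
  rw [mem_inter] at hi'
  by_cases h1 : i ∈ rows p.1
  · exact row_harm1 (fun p h => (hpl p h).1) hmax hrel hp h1 fun h => hi' ⟨h1, h⟩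
  · have h2 : i ∈ rows p.2 := hi.resolve_left h1
    have := row_harm1 (f := fun p => f p.swap) (c := c) (fun p h => (hpl _ h).2)
      (fun p h => by rw [← ov_swap]; exact hmax _ h) (fun A B j => hrel' B A j)
      (p := p.swap) (i := i) (by rw [ov_swap]; exact hp) h2 h1
    rw [Prod.fst_swap, Prod.snd_swap, Prod.swap_swap, union_comm] at this
    rw [← this]
    congr 1

lemma col_harm {f : Pr n → ℂ} {c : ℕ} (hpl : ∀ p, f p ≠ 0 → IsPl p.1 ∧ IsPl p.2)
    (hmax : ∀ p, f p ≠ 0 → ov p ≤ c)
    (hrel : ∀ (A B : Finset (Cell n)) (j : Fin n), ∑ t ∈ (cols A)ᶜ, f (insert (j, t) A, B) = 0)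
    (hrel' : ∀ (A B : Finset (Cell n)) (j : Fin n), ∑ t ∈ (cols B)ᶜ, f (A, insert (j, t) B) = 0)
    {p : Pr n} {i : Fin n} (hp : ov p = c) (hi : i ∈ cols (p.1 ∪ p.2))
    (hi' : i ∉ cols p.1 ∩ cols p.2) :
    f p + ∑ t ∈ (cols (p.1 ∪ p.2))ᶜ, f (actp (1, Equiv.swap i t) p) = 0 := by
  rw [cols_union, mem_union] at hi
  rw [mem_inter] at hi'
  by_cases h1 : i ∈ cols p.1
  · exact col_harm1 (fun p h => (hpl p h).1) hmax hrel hp h1 fun h => hi' ⟨h1, h⟩
  · have h2 : i ∈ cols p.2 := hi.resolve_left h1
    have := col_harm1 (f := fun p => f p.swap) (c := c) (fun p h => (hpl _ h).2)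
      (fun p h => by rw [← ov_swap]; exact hmax _ h) (fun A B j => hrel' B A j)
      (p := p.swap) (i := i) (by rw [ov_swap]; exact hp) h2 h1
    rw [Prod.fst_swap, Prod.snd_swap, Prod.swap_swap, union_comm] at this
    rw [← this]
    congr 1

/-- the tensor product is spanned by the image of `W` -/
theorem qm_surj (n a b : ℕ) (y : M n a ⊗[ℂ] M n b) : ∃ w ∈ W n a b, qm n a b w = y := by
  classical
  have key : (W n a b).map (qm n a b) = ⊤ := by
    by_contra hne
    obtain ⟨θ, hθ0, hθ⟩ := Submodule.exists_le_ker_of_lt_top _ (lt_top_iff_ne_top.2 hne)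
    apply hθ0
    set f : Pr n → ℂ := fun p => θ (cls n a (mon p.1) ⊗ₜ[ℂ] cls n b (mon p.2)) with hf
    have hfne : ∀ p, f p ≠ 0 → (IsPl p.1 ∧ p.1.card = a) ∧ (IsPl p.2 ∧ p.2.card = b) := by
      intro p hp
      constructor
      · refine cls_mon_ne fun h => hp ?_
        rw [hf]
        simp only
        rw [h, zero_tmul, map_zero]
      · refine cls_mon_ne fun h => hp ?_
        rw [hf]
        simp only
        rw [h, tmul_zero, map_zero]
    have hf0 : ∀ p, f p = 0 := by
      by_contra hcon
      push Not at hcon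
      obtain ⟨p₀, hp₀, hmax⟩ := exists_max_image (univ.filter fun p => f p ≠ 0) ov (by
        obtain ⟨p, hp⟩ := hcon
        exact ⟨p, by simpa using hp⟩)
      rw [mem_filter] at hp₀
      have hmax' : ∀ p, f p ≠ 0 → ov p ≤ ov p₀ := fun p hp => hmax p (by simpa using hp)
      set w : Pr n → ℂ := fun p => if ov p = ov p₀ then (starRingEnd ℂ) (f p) else 0 with hw
      have hwW : w ∈ W n a b := by
        refine ⟨fun p hp => ?_, fun p i hi hi' => ?_, fun p i hi hi' => ?_⟩
        · have : f p ≠ 0 := by
            intro h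
            apply hp
            rw [hw]
            simp [h]
          obtain ⟨⟨h1, h2⟩, ⟨h3, h4⟩⟩ := hfne p this
          exact ⟨h1, h3, h2, h4⟩
        · rw [hw]
          simp only [ov_actp]
          by_cases hov : ov p = ov p₀
          · simp only [hov, if_true]
            rw [← map_sum, ← map_add, row_harm (f := f) (fun p h => ⟨(hfne p h).1.1, (hfne p h).2.1⟩)
              hmax' ?_ ?_ hov hi hi', map_zero]
            · intro A B j
              rw [hf]
              simp only
              rw [← map_sum, ← sum_tmul, rel_row, zero_tmul, map_zero]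
            · intro A B j
              rw [hf]
              simp only
              rw [← map_sum, ← tmul_sum, rel_row, tmul_zero, map_zero]
          · simp [hov]
        · rw [hw]
          simp only [ov_actp]
          by_cases hov : ov p = ov p₀
          · simp only [hov, if_true]
            rw [← map_sum, ← map_add, col_harm (f := f) (fun p h => ⟨(hfne p h).1.1, (hfne p h).2.1⟩)
              hmax' ?_ ?_ hov hi hi', map_zero]
            · intro A B j
              rw [hf]
              simp only
              rw [← map_sum, ← sum_tmul, rel_col, zero_tmul, map_zero]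
            · intro A B j
              rw [hf]
              simp only
              rw [← map_sum, ← tmul_sum, rel_col, tmul_zero, map_zero]
          · simp [hov]
      have h1 : θ (qm n a b w) = 0 := hθ (Submodule.mem_map_of_mem hwW)
      have h2 : θ (qm n a b w) = ∑ p, w p * f p := by
        change θ (∑ p, w p • (cls n a (mon p.1) ⊗ₜ[ℂ] cls n b (mon p.2))) = _
        rw [map_sum]
        exact sum_congr rfl fun p _ => by rw [map_smul, smul_eq_mul]
      rw [h2] at h1
      have h3 : ∀ p, w p * f p = ((if ov p = ov p₀ then Complex.normSq (f p) else 0 : ℝ) : ℂ) := by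
        intro p
        rw [hw]
        simp only
        split_ifs
        · rw [mul_comm, Complex.mul_conj]
        · simp
      simp_rw [h3] at h1
      rw [← Complex.ofReal_sum] at h1
      have h4 : ∑ p, (if ov p = ov p₀ then Complex.normSq (f p) else 0 : ℝ) = 0 := by
        exact_mod_cast h1
      have h5 := (sum_eq_zero_iff_of_nonneg fun p _ => by
        split_ifs
        · exact Complex.normSq_nonneg _
        · exact le_rfl).1 h4 p₀ (mem_univ _)
      rw [if_pos rfl, Complex.normSq_eq_zero] at h5
      exact hp₀.2 h5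
    -- hence `θ = 0`
    refine TensorProduct.ext' fun x y => ?_
    rw [LinearMap.zero_apply]
    refine Submodule.span_induction (p := fun x _ => θ (x ⊗ₜ[ℂ] y) = 0) ?_ ?_ ?_ ?_
      (M_mem_span a x)
    · rintro _ ⟨A, rfl⟩
      refine Submodule.span_induction
        (p := fun y _ => θ ((cls n a (mon A)) ⊗ₜ[ℂ] y) = 0) ?_ ?_ ?_ ?_ (M_mem_span b y)
      · rintro _ ⟨B, rfl⟩
        exact hf0 (A, B)
      · rw [tmul_zero, map_zero]
      · intro y z _ _ hy hz
        rw [tmul_add, map_add, hy, hz, add_zero]
      · intro c y _ hy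
        rw [tmul_smul, map_smul, hy, smul_zero]
    · rw [zero_tmul, map_zero]
    · intro x z _ _ hx hz
      rw [add_tmul, map_add, hx, hz, add_zero]
    · intro c x _ hx
      rw [← smul_tmul', map_smul, hx, smul_zero]
  have hy : y ∈ (W n a b).map (qm n a b) := by
    rw [key]
    exact Submodule.mem_top
  obtain ⟨w, hw, hwy⟩ := hy
  exact ⟨w, hw, hwy⟩

end Pool.Agent.Helper30.PML
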